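import Pool.Agent.MP_179466_co.FracPow

open scoped BigOperators Classical

namespace Pool.Agent.MP_179466_co

/-- A `q`-partite theorem for complete arrays of ONE size `N` implies the positive density form,
families of any sizes. -/
theorem frac_sizes_pow (k N : ℕ) (hN1 : 1 ≤ N)
    (hc : ∀ A : Fin (k + 1) → Fin N → Set (EuclideanSpace ℝ (Fin 3)), (∀ s i, Convex ℝ (A s i)) →
      (∀ s t, s ≠ t → ∀ i j, (A s i ∩ A t j).Nonempty) →
      ∃ (s : Fin (k + 1)) (x d : EuclideanSpace ℝ (Fin 3)), d ≠ 0 ∧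
        10000 ≤ Nat.card {i : Fin N // ∃ t : ℝ, x + t • d ∈ A s i}) :
    ∃ c : ℝ, 0 < c ∧ ∀ (α : ℝ), 0 < α → ∀ (m : Fin (k + 1) → ℕ), (∀ s, 1 ≤ m s) →
      ∀ A : (s : Fin (k + 1)) → Fin (m s) → Set (EuclideanSpace ℝ (Fin 3)),
      (∀ s i, Convex ℝ (A s i)) →
      α * ∏ s, (m s : ℝ) ≤
        (Nat.card {x : (s : Fin (k + 1)) → Fin (m s) //
          ∀ s t, s ≠ t → (A s (x s) ∩ A t (x t)).Nonempty} : ℝ) →
      ∃ (s : Fin (k + 1)) (x d : EuclideanSpace ℝ (Fin 3)), d ≠ 0 ∧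
        c * α ^ (N ^ (k + 1)) * (m s : ℝ) ≤
          (Nat.card {i : Fin (m s) // ∃ t : ℝ, x + t • d ∈ A s i} : ℝ) := by
  obtain ⟨c, hc0, hmain0⟩ := frac_core_pow (k + 1) N hN1 hc
  refine ⟨c, hc0, ?_⟩
  intro α hα m hm A hconv hdens
  have hmain := hmain0 α hα
  have hne : ∀ s, Nonempty (Fin (m s)) := fun s => ⟨⟨0, hm s⟩⟩
  have hcardι : (Fintype.card ((s : Fin (k + 1)) → Fin (m s)) : ℝ) = ∏ s, (m s : ℝ) := by
    rw [Fintype.card_pi]
    push_cast
    simp
  have hιpos : (0:ℝ) < Fintype.card ((s : Fin (k + 1)) → Fin (m s)) := by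
    exact_mod_cast Fintype.card_pos
  obtain ⟨s, x, d, hd, hle⟩ := hmain ((s : Fin (k + 1)) → Fin (m s)) (fun s x => A s (x s))
    (fun s x => hconv s _) (by
      have h1 := diag_count k (fun t => Fin (m t))
        (fun y => ∀ s t, s ≠ t → (A s (y s) ∩ A t (y t)).Nonempty)
      have h2 : ((Finset.univ.filter fun X : Fin (k + 1) → ((t : Fin (k + 1)) → Fin (m t)) =>
          ∀ s t, s ≠ t → (A s (X s s) ∩ A t (X t t)).Nonempty).card : ℝ) =
          ((Finset.univ.filter fun y : (t : Fin (k + 1)) → Fin (m t) =>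
            ∀ s t, s ≠ t → (A s (y s) ∩ A t (y t)).Nonempty).card : ℝ) *
          (Fintype.card ((t : Fin (k + 1)) → Fin (m t)) : ℝ) ^ k := by
        exact_mod_cast h1
      rw [Nat.card_eq_fintype_card, Fintype.card_subtype] at hdens
      rw [h2, pow_succ, mul_comm ((Fintype.card ((s : Fin (k + 1)) → Fin (m s)) : ℝ) ^ k),
        ← mul_assoc]
      refine mul_le_mul_of_nonneg_right ?_ (by positivity)
      rw [hcardι]
      exact hdens)
  refine ⟨s, x, d, hd, ?_⟩
  have h3 := coord_count m s (fun i => ∃ t : ℝ, x + t • d ∈ A s i)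
  rw [Nat.card_eq_fintype_card, Fintype.card_subtype] at hle ⊢
  have h4 : ((Finset.univ.filter fun y : (t : Fin (k + 1)) → Fin (m t) =>
      ∃ t : ℝ, x + t • d ∈ A s (y s)).card : ℝ) * (m s : ℝ) =
      ((Finset.univ.filter fun i => ∃ t : ℝ, x + t • d ∈ A s i).card : ℝ) *
        (Fintype.card ((t : Fin (k + 1)) → Fin (m t)) : ℝ) := by
    exact_mod_cast h3
  have hms : (0:ℝ) ≤ (m s : ℝ) := by positivity
  refine le_of_mul_le_mul_right ?_ hιpos
  rw [← h4]
  calc c * α ^ (N ^ (k + 1)) * (m s : ℝ) *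
        (Fintype.card ((s : Fin (k + 1)) → Fin (m s)) : ℝ) =
      (c * α ^ (N ^ (k + 1)) *
        (Fintype.card ((s : Fin (k + 1)) → Fin (m s)) : ℝ)) * (m s : ℝ) := by ring
    _ ≤ _ := mul_le_mul_of_nonneg_right hle hms



/-- Two families: if every array of `N * N` points has a line that meets 10000 row hulls or 10000
column hulls, then two families with a positive fraction of intersecting pairs have a line that
meets a positive fraction of one of them. -/
theorem two_of_arrays_pow (N : ℕ) (hN : 1 ≤ N)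
    (H : ∀ p : Fin N → Fin N → EuclideanSpace ℝ (Fin 3), ∃ x d : EuclideanSpace ℝ (Fin 3), d ≠ 0 ∧
      (10000 ≤ Nat.card {i : Fin N // ∃ t : ℝ, x + t • d ∈ convexHull ℝ (Set.range (p i))} ∨
        10000 ≤ Nat.card {j : Fin N // ∃ t : ℝ,
          x + t • d ∈ convexHull ℝ (Set.range fun i => p i j)})) :
    ∃ (c : ℝ) (K : ℕ), 0 < c ∧ ∀ (α : ℝ), 0 < α → ∀ (m n : ℕ), 1 ≤ m → 1 ≤ n →
      ∀ (A : Fin m → Set (EuclideanSpace ℝ (Fin 3))) (B : Fin n → Set (EuclideanSpace ℝ (Fin 3))),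
      (∀ i, Convex ℝ (A i)) → (∀ j, Convex ℝ (B j)) →
      α * (m * n : ℝ) ≤ (Nat.card {q : Fin m × Fin n // (A q.1 ∩ B q.2).Nonempty} : ℝ) →
      (∃ x d : EuclideanSpace ℝ (Fin 3), d ≠ 0 ∧
        c * α ^ K * (m : ℝ) ≤ (Nat.card {i : Fin m // ∃ t : ℝ, x + t • d ∈ A i} : ℝ)) ∨
      (∃ x d : EuclideanSpace ℝ (Fin 3), d ≠ 0 ∧
        c * α ^ K * (n : ℝ) ≤ (Nat.card {j : Fin n // ∃ t : ℝ, x + t • d ∈ B j} : ℝ)) := by
  obtain ⟨c, hc, h0⟩ := frac_sizes_pow 1 N hN (by
    intro A hA hcomp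
    have hpt : ∀ i j, ∃ p, p ∈ A 0 i ∩ A 1 j := fun i j => hcomp 0 1 (by decide) i j
    choose p hp using hpt
    obtain ⟨x, d, hd, h1 | h1⟩ := H p
    · refine ⟨0, x, d, hd, h1.trans ?_⟩
      rw [Nat.card_eq_fintype_card, Nat.card_eq_fintype_card, Fintype.card_subtype,
        Fintype.card_subtype]
      refine Finset.card_le_card fun i hi => ?_
      rw [Finset.mem_filter] at hi ⊢
      obtain ⟨_, t, ht⟩ := hi
      refine ⟨Finset.mem_univ _, t, convexHull_min ?_ (hA 0 i) ht⟩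
      rintro _ ⟨j, rfl⟩
      exact (hp i j).1
    · refine ⟨1, x, d, hd, h1.trans ?_⟩
      rw [Nat.card_eq_fintype_card, Nat.card_eq_fintype_card, Fintype.card_subtype,
        Fintype.card_subtype]
      refine Finset.card_le_card fun j hj => ?_
      rw [Finset.mem_filter] at hj ⊢
      obtain ⟨_, t, ht⟩ := hj
      refine ⟨Finset.mem_univ _, t, convexHull_min ?_ (hA 1 j) ht⟩
      rintro _ ⟨i, rfl⟩
      exact (hp i j).2)
  refine ⟨c, N ^ (1 + 1), hc, ?_⟩
  intro α hα m n hm hn A B hA hB hdens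
  have h := h0 α hα
  let m' : Fin 2 → ℕ := fun k => if k = 0 then m else n
  let A' : (k : Fin 2) → Fin (m' k) → Set (EuclideanSpace ℝ (Fin 3)) := fun k =>
    match k with
    | 0 => A
    | 1 => B
  have hmain := h m' (by
      intro k
      match k with
      | 0 => exact hm
      | 1 => exact hn) A' (by
      intro k
      match k with
      | 0 => exact hA
      | 1 => exact hB) (by
      have e1 : (∏ k, (m' k : ℝ)) = (m * n : ℝ) := by
        rw [Fin.prod_univ_two]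
        rfl
      rw [e1]
      refine hdens.trans (le_of_eq ?_)
      congr 1
      refine Nat.card_congr (Equiv.subtypeEquiv (piFinTwoEquiv fun k => Fin (m' k)).symm ?_)
      rintro ⟨i, j⟩
      constructor
      · rintro ⟨x, hx⟩ k l hkl
        match k, l with
        | 0, 0 => exact absurd rfl hkl
        | 0, 1 => exact ⟨x, hx.1, hx.2⟩
        | 1, 0 => exact ⟨x, hx.2, hx.1⟩
        | 1, 1 => exact absurd rfl hkl
      · intro hall
        obtain ⟨x, hx1, hx2⟩ := hall 0 1 (by decide)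
        exact ⟨x, hx1, hx2⟩)
  obtain ⟨k, x, d, hd, hle⟩ := hmain
  have hk : k = 0 ∨ k = 1 := by
    have := k.2
    rcases Nat.lt_or_ge k.1 1 with h0 | h0
    · exact Or.inl (Fin.ext (by simpa using h0))
    · exact Or.inr (Fin.ext (by simpa using (by omega : k.1 = 1)))
  rcases hk with rfl | rfl
  · exact Or.inl ⟨x, d, hd, hle⟩
  · exact Or.inr ⟨x, d, hd, hle⟩

end Pool.Agent.MP_179466_co
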