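import Mathlib

/-!
Pairwise intersecting convex sets in three-space: if two polytopes meet, an edge of one of them meets
the other; double counting then gives a line through many members of the family. Every convex set is
approximated from outside by a polytope with a bounded number of vertices.
-/

open scoped BigOperators Classical Pointwise Topology RealInnerProductSpace

set_option linter.unusedSectionVars false

namespace Pool.Agent.MP_179466_co

section General

variable {V : Type*} [AddCommGroup V] [Module ℝ V] [FiniteDimensional ℝ V]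

/-- a nonempty finite set with at most two elements is a pair (maybe degenerate) -/
lemma pair_of_card_le_two {α : Type*} [DecidableEq α] (s : Finset α) (hs : s.Nonempty)
    (h : s.card ≤ 2) : ∃ a b, s = {a, b} := by
  obtain ⟨a, ha⟩ := hs
  rcases Nat.lt_or_ge s.card 2 with h1 | h1
  · have : s.card = 1 := by
      have : 0 < s.card := Finset.card_pos.mpr ⟨a, ha⟩
      omega
    obtain ⟨c, hc⟩ := Finset.card_eq_one.mp this
    exact ⟨c, c, by simp [hc]⟩
  · have : s.card = 2 := le_antisymm h h1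
    obtain ⟨x, y, -, hxy⟩ := Finset.card_eq_two.mp this
    exact ⟨x, y, hxy⟩

/-- If the hulls of two finite sets in a space of dimension at most three meet, then the hull of at
most two points of one of the sets meets the hull of the other. -/
lemma edge_meets (hV : Module.finrank ℝ V ≤ 3) (A B : Finset V)
    (h : (convexHull ℝ (A : Set V) ∩ convexHull ℝ (B : Set V)).Nonempty) :
    (∃ a ∈ A, ∃ a' ∈ A, (segment ℝ a a' ∩ convexHull ℝ (B : Set V)).Nonempty) ∨
    (∃ b ∈ B, ∃ b' ∈ B, (segment ℝ b b' ∩ convexHull ℝ (A : Set V)).Nonempty) := by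
  obtain ⟨x, hxA, hxB⟩ := h
  let f : V → V × ℝ := fun a => (a, 1)
  let g : V → V × ℝ := fun b => (-b, -1)
  -- the point 0 is in the hull
  have hfx : f x ∈ convexHull ℝ (f '' (A : Set V)) := by
    let F : V →ᵃ[ℝ] V × ℝ := (LinearMap.inl ℝ V ℝ).toAffineMap + AffineMap.const ℝ V ((0, 1) : V × ℝ)
    have e : f = ⇑F := by
      funext a; simp [f, F]
    rw [e, ← AffineMap.image_convexHull]
    exact ⟨x, hxA, rfl⟩
  have hgx : g x ∈ convexHull ℝ (g '' (B : Set V)) := by
    let G : V →ᵃ[ℝ] V × ℝ :=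
      (-(LinearMap.inl ℝ V ℝ)).toAffineMap + AffineMap.const ℝ V ((0, -1) : V × ℝ)
    have e : g = ⇑G := by
      funext a; simp [g, G]
    rw [e, ← AffineMap.image_convexHull]
    exact ⟨x, hxB, rfl⟩
  have h0 : (0 : V × ℝ) ∈ convexHull ℝ (f '' (A : Set V) ∪ g '' (B : Set V)) := by
    have hc := convex_convexHull ℝ (f '' (A : Set V) ∪ g '' (B : Set V))
    have h1 := convexHull_mono (Set.subset_union_left (s := f '' (A : Set V))
      (t := g '' (B : Set V))) hfx
    have h2 := convexHull_mono (Set.subset_union_right (s := f '' (A : Set V))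
      (t := g '' (B : Set V))) hgx
    have := hc h1 h2 (a := 1/2) (b := 1/2) (by norm_num) (by norm_num) (by norm_num)
    convert this using 1
    ext <;> simp [f, g]
  rw [convexHull_eq_union] at h0
  simp only [Set.mem_iUnion] at h0
  obtain ⟨t, hts, hti, ht0⟩ := h0
  have hcard : t.card ≤ 5 := by
    have := hti.card_le_finrank_succ
    simp only [Fintype.card_coe] at this
    have h2 : Module.finrank ℝ (vectorSpan ℝ (Set.range ((↑) : t → V × ℝ))) ≤
        Module.finrank ℝ (V × ℝ) := Submodule.finrank_le _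
    have h3 : Module.finrank ℝ (V × ℝ) = Module.finrank ℝ V + 1 := by
      rw [Module.finrank_prod]; simp
    omega
  set tA := t.filter (fun p => p.2 = 1) with htA
  set tB := t.filter (fun p => ¬ p.2 = 1) with htB
  have hAB : tA.card + tB.card = t.card := Finset.card_filter_add_card_filter_not _
  have hunion : (t : Set (V × ℝ)) = (tA : Set (V × ℝ)) ∪ (tB : Set (V × ℝ)) := by
    rw [← Finset.coe_union, htA, htB, Finset.filter_union_filter_not_eq]
  have hAmem : ∀ p ∈ tA, p.1 ∈ A ∧ p.2 = 1 := by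
    intro p hp
    rw [htA, Finset.mem_filter] at hp
    rcases hts hp.1 with ⟨a, ha, rfl⟩ | ⟨b, hb, rfl⟩
    · exact ⟨ha, rfl⟩
    · exfalso; have := hp.2; simp [g] at this; norm_num at this
  have hBmem : ∀ p ∈ tB, -p.1 ∈ B ∧ p.2 = -1 := by
    intro p hp
    rw [htB, Finset.mem_filter] at hp
    rcases hts hp.1 with ⟨a, ha, rfl⟩ | ⟨b, hb, rfl⟩
    · exact absurd rfl hp.2
    · exact ⟨by simpa [g] using hb, rfl⟩
  have hA2 : ∀ p ∈ convexHull ℝ (tA : Set (V × ℝ)), p.2 = 1 := by
    intro p hp
    have : (tA : Set (V × ℝ)) ⊆ {q | q.2 = 1} := fun q hq => (hAmem q hq).2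
    have hconv : Convex ℝ {q : V × ℝ | q.2 = 1} := by
      intro a ha b hb s t _ _ hst
      simp only [Set.mem_ofPred_eq] at ha hb ⊢
      simp [ha, hb, hst]
    exact convexHull_min this hconv hp
  have hB2 : ∀ p ∈ convexHull ℝ (tB : Set (V × ℝ)), p.2 = -1 := by
    intro p hp
    have : (tB : Set (V × ℝ)) ⊆ {q | q.2 = -1} := fun q hq => (hBmem q hq).2
    have hconv : Convex ℝ {q : V × ℝ | q.2 = -1} := by
      intro a ha b hb s t _ _ hst
      simp only [Set.mem_ofPred_eq] at ha hb ⊢
      simp only [Prod.snd_add, Prod.smul_snd, ha, hb, smul_eq_mul]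
      linarith
    exact convexHull_min this hconv hp
  have hAne : tA.Nonempty := by
    by_contra hne
    rw [Finset.not_nonempty_iff_eq_empty] at hne
    rw [hunion, hne] at ht0
    simp only [Finset.coe_empty, Set.empty_union] at ht0
    have := hB2 _ ht0
    simp at this
  have hBne : tB.Nonempty := by
    by_contra hne
    rw [Finset.not_nonempty_iff_eq_empty] at hne
    rw [hunion, hne] at ht0
    simp only [Finset.coe_empty, Set.union_empty] at ht0
    have := hA2 _ ht0
    simp at this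
  rw [hunion, convexHull_union (by exact_mod_cast hAne) (by exact_mod_cast hBne),
    mem_convexJoin] at ht0
  obtain ⟨p, hp, q, hq, α, β, hα, hβ, hαβ, hpq⟩ := ht0
  have hp2 := hA2 p hp
  have hq2 := hB2 q hq
  have e1 : α • p.1 + β • q.1 = 0 := by
    have := congrArg Prod.fst hpq; simpa using this
  have e2 : α * p.2 + β * q.2 = 0 := by
    have := congrArg Prod.snd hpq; simpa using this
  rw [hp2, hq2] at e2
  have hα' : α = 1/2 := by linarith
  have hβ' : β = 1/2 := by linarith
  have hpq1 : p.1 = -q.1 := by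
    rw [hα', hβ', ← smul_add, smul_eq_zero] at e1
    rcases e1 with e1 | e1
    · norm_num at e1
    · exact eq_neg_of_add_eq_zero_left e1
  -- projections
  have hpA : p.1 ∈ convexHull ℝ (A : Set V) := by
    have h1 : (LinearMap.fst ℝ V ℝ) p ∈ (LinearMap.fst ℝ V ℝ) '' convexHull ℝ (tA : Set (V × ℝ)) :=
      ⟨p, hp, rfl⟩
    rw [LinearMap.image_convexHull] at h1
    refine convexHull_mono ?_ h1
    rintro _ ⟨r, hr, rfl⟩
    exact (hAmem r hr).1
  have hqB : -q.1 ∈ convexHull ℝ (B : Set V) := by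
    have h1 : (-(LinearMap.fst ℝ V ℝ)) q ∈
        (-(LinearMap.fst ℝ V ℝ)) '' convexHull ℝ (tB : Set (V × ℝ)) := ⟨q, hq, rfl⟩
    rw [LinearMap.image_convexHull] at h1
    refine convexHull_mono ?_ h1
    rintro _ ⟨r, hr, rfl⟩
    exact (hBmem r hr).1
  have hor : tA.card ≤ 2 ∨ tB.card ≤ 2 := by omega
  rcases hor with hle | hle
  · left
    obtain ⟨u, v, huv⟩ := pair_of_card_le_two tA hAne hle
    have hu : u ∈ tA := by rw [huv]; simp
    have hv : v ∈ tA := by rw [huv]; simp
    refine ⟨u.1, (hAmem u hu).1, v.1, (hAmem v hv).1, p.1, ?_, ?_⟩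
    · rw [huv] at hp
      simp only [Finset.coe_insert, Finset.coe_singleton, convexHull_pair] at hp
      obtain ⟨c, d, hc, hd, hcd, rfl⟩ := hp
      exact ⟨c, d, hc, hd, hcd, by simp⟩
    · rw [hpq1]; exact hqB
  · right
    obtain ⟨u, v, huv⟩ := pair_of_card_le_two tB hBne hle
    have hu : u ∈ tB := by rw [huv]; simp
    have hv : v ∈ tB := by rw [huv]; simp
    refine ⟨-u.1, (hBmem u hu).1, -v.1, (hBmem v hv).1, -q.1, ?_, ?_⟩
    · rw [huv] at hq
      simp only [Finset.coe_insert, Finset.coe_singleton, convexHull_pair] at hq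
      obtain ⟨c, d, hc, hd, hcd, rfl⟩ := hq
      exact ⟨c, d, hc, hd, hcd, by simp [add_comm]⟩
    · rw [← hpq1]; exact hpA

lemma dc {n : ℕ} {τ : Type*} (M : ℕ) (T : Fin n → Finset τ) (hT : ∀ i, (T i).card ≤ M)
    (I : Fin n → Fin n → Prop)
    (R : Fin n → τ → Fin n → Prop)
    (h : ∀ i j, i ≠ j → I i j → (∃ t ∈ T i, R i t j) ∨ (∃ t ∈ T j, R j t i)) :
    ((Finset.univ : Finset (Fin n × Fin n)).filter fun p => p.1 ≠ p.2 ∧ I p.1 p.2).card = 0 ∨
    ∃ i, ∃ t ∈ T i,
      ((Finset.univ : Finset (Fin n × Fin n)).filter fun p => p.1 ≠ p.2 ∧ I p.1 p.2).card ≤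
        2 * (n * M) * ((Finset.univ.filter fun j => j ≠ i ∧ R i t j).card) := by
  set E := ((Finset.univ : Finset (Fin n × Fin n)).filter fun p => p.1 ≠ p.2 ∧ I p.1 p.2).card
    with hE
  by_cases hE0 : E = 0
  · exact Or.inl hE0
  right
  by_contra hcon
  push Not at hcon
  set c : Fin n → τ → ℕ := fun i t => (Finset.univ.filter fun j => j ≠ i ∧ R i t j).card with hc
  set S : Finset (Fin n × Fin n) :=
    Finset.univ.filter fun p => p.1 ≠ p.2 ∧ ∃ t ∈ T p.1, R p.1 t p.2 with hS
  have h1 : E ≤ 2 * S.card := by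
    have hsub : ((Finset.univ : Finset (Fin n × Fin n)).filter
        fun p => p.1 ≠ p.2 ∧ I p.1 p.2) ⊆ S ∪ S.image Prod.swap := by
      intro p hp
      rw [Finset.mem_filter] at hp
      rcases h p.1 p.2 hp.2.1 hp.2.2 with ht | ht
      · apply Finset.mem_union_left
        rw [hS, Finset.mem_filter]
        exact ⟨Finset.mem_univ _, hp.2.1, ht⟩
      · apply Finset.mem_union_right
        rw [Finset.mem_image]
        refine ⟨p.swap, ?_, by simp⟩
        rw [hS, Finset.mem_filter]
        exact ⟨Finset.mem_univ _, fun e => hp.2.1 e.symm, ht⟩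
    calc E ≤ (S ∪ S.image Prod.swap).card := Finset.card_le_card hsub
      _ ≤ S.card + (S.image Prod.swap).card := Finset.card_union_le _ _
      _ ≤ S.card + S.card := Nat.add_le_add_left Finset.card_image_le _
      _ = 2 * S.card := by ring
  have h2 : S.card ≤ ∑ i, ∑ t ∈ T i, c i t := by
    let K : Fin n → τ → Finset (Fin n × Fin n) := fun i t =>
      (Finset.univ.filter fun j => j ≠ i ∧ R i t j).image fun j => (i, j)
    have hsub : S ⊆ (Finset.univ : Finset (Fin n)).biUnion (fun i => (T i).biUnion fun t => K i t) := by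
      intro p hp
      rw [hS, Finset.mem_filter] at hp
      obtain ⟨-, hne, t, ht, hR⟩ := hp
      simp only [K, Finset.mem_biUnion, Finset.mem_univ, true_and, Finset.mem_image,
        Finset.mem_filter]
      exact ⟨p.1, t, ht, p.2, ⟨fun e => hne e.symm, hR⟩, rfl⟩
    calc S.card ≤ _ := Finset.card_le_card hsub
      _ ≤ ∑ i, ((T i).biUnion fun t => K i t).card := Finset.card_biUnion_le
      _ ≤ ∑ i, ∑ t ∈ T i, c i t := by
          apply Finset.sum_le_sum
          intro i _
          calc _ ≤ ∑ t ∈ T i, (K i t).card := Finset.card_biUnion_le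
            _ ≤ ∑ t ∈ T i, c i t := Finset.sum_le_sum fun t _ => Finset.card_image_le
  have h3 : 2 * (n * M) * ∑ i, ∑ t ∈ T i, c i t ≤ (n * M) * (E - 1) := by
    rw [Finset.mul_sum]
    calc ∑ i, 2 * (n * M) * ∑ t ∈ T i, c i t ≤ ∑ _i : Fin n, M * (E - 1) := by
          apply Finset.sum_le_sum
          intro i _
          rw [Finset.mul_sum]
          calc ∑ t ∈ T i, 2 * (n * M) * c i t ≤ ∑ t ∈ T i, (E - 1) := by
                apply Finset.sum_le_sum
                intro t ht
                have := hcon i t ht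
                exact Nat.le_sub_one_of_lt this
            _ = (T i).card * (E - 1) := by rw [Finset.sum_const, smul_eq_mul]
            _ ≤ M * (E - 1) := by gcongr; exact hT i
      _ = (n * M) * (E - 1) := by
          rw [Finset.sum_const, Finset.card_univ, Fintype.card_fin, smul_eq_mul]; ring
  have hnM : 0 < n * M := by
    rcases Nat.eq_zero_or_pos (n * M) with h0 | h0
    · exfalso
      apply hE0
      have hS0 : S.card = 0 := by
        rw [Finset.card_eq_zero]
        apply Finset.eq_empty_of_forall_notMem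
        intro p hp
        rw [hS, Finset.mem_filter] at hp
        obtain ⟨-, -, t, ht, -⟩ := hp
        rcases Nat.mul_eq_zero.mp h0 with hn | hM
        · exact absurd p.1.2 (by omega)
        · have := hT p.1
          rw [hM] at this
          have h4 : 0 < (T p.1).card := Finset.card_pos.mpr ⟨t, ht⟩
          omega
      omega
    · exact h0
  have h4 : (n * M) * E ≤ (n * M) * (E - 1) := by
    calc (n * M) * E ≤ (n * M) * (2 * ∑ i, ∑ t ∈ T i, c i t) := by
          gcongr; omega
      _ = 2 * (n * M) * ∑ i, ∑ t ∈ T i, c i t := by ring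
      _ ≤ _ := h3
  have h5 : E ≤ E - 1 := Nat.le_of_mul_le_mul_left h4 hnM
  omega

/-- From the double counting to lines: each `(i, t)` with `t ∈ T i` comes with a line that meets
`C i` and every `C j` with `R i t j`, as soon as there is such a `j`. -/
lemma line_of_dc {n : ℕ} {τ : Type*} [Nontrivial V] (M : ℕ) (hM : 1 ≤ M)
    (C : Fin n → Set V) (T : Fin n → Finset τ)
    (hT : ∀ i, (T i).card ≤ M) (R : Fin n → τ → Fin n → Prop)
    (h : ∀ i j, i ≠ j → (C i ∩ C j).Nonempty → (∃ t ∈ T i, R i t j) ∨ (∃ t ∈ T j, R j t i))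
    (hline : ∀ i, ∀ t ∈ T i, ∀ j, R i t j → ∃ x d : V, d ≠ 0 ∧ (∃ s : ℝ, x + s • d ∈ C i) ∧
      ∀ j', R i t j' → ∃ s : ℝ, x + s • d ∈ C j') :
    ∃ x d : V, d ≠ 0 ∧
      (Finset.univ.filter fun p : Fin n × Fin n => (C p.1 ∩ C p.2).Nonempty).card ≤
        2 * M * n * (Finset.univ.filter fun i => ∃ s : ℝ, x + s • d ∈ C i).card := by
  set E' := (Finset.univ.filter fun p : Fin n × Fin n => (C p.1 ∩ C p.2).Nonempty).card with hE'
  set E := ((Finset.univ : Finset (Fin n × Fin n)).filter
    fun p => p.1 ≠ p.2 ∧ (C p.1 ∩ C p.2).Nonempty).card with hE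
  have hEE : E' ≤ n + E := by
    have hsub : (Finset.univ.filter fun p : Fin n × Fin n => (C p.1 ∩ C p.2).Nonempty) ⊆
        (Finset.univ.image fun i : Fin n => (i, i)) ∪ ((Finset.univ : Finset (Fin n × Fin n)).filter
    fun p => p.1 ≠ p.2 ∧ (C p.1 ∩ C p.2).Nonempty) := by
      intro p hp
      rw [Finset.mem_filter] at hp
      by_cases he : p.1 = p.2
      · apply Finset.mem_union_left
        rw [Finset.mem_image]
        exact ⟨p.1, Finset.mem_univ _, by ext <;> simp [he]⟩
      · apply Finset.mem_union_right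
        rw [Finset.mem_filter]
        exact ⟨Finset.mem_univ _, he, hp.2⟩
    calc E' ≤ _ := Finset.card_le_card hsub
      _ ≤ (Finset.univ.image fun i : Fin n => (i, i)).card + E := Finset.card_union_le _ _
      _ ≤ n + E := by
          have : (Finset.univ.image fun i : Fin n => (i, i)).card ≤ n :=
            Finset.card_image_le.trans (by simp)
          omega
  obtain ⟨d₀, hd₀⟩ := exists_ne (0 : V)
  have key : ∀ x d : V, (∃ i, ∃ s : ℝ, x + s • d ∈ C i) →
      1 ≤ (Finset.univ.filter fun i => ∃ s : ℝ, x + s • d ∈ C i).card := by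
    rintro x d ⟨i, hi⟩
    exact Finset.card_pos.mpr ⟨i, by simpa using hi⟩
  have trivialcase : E = 0 → ∃ x d : V, d ≠ 0 ∧ E' ≤
        2 * M * n * (Finset.univ.filter fun i => ∃ s : ℝ, x + s • d ∈ C i).card := by
    intro hE0
    by_cases hex : ∃ i, (C i).Nonempty
    · obtain ⟨i, y, hy⟩ := hex
      refine ⟨y, d₀, hd₀, ?_⟩
      have h1 := key y d₀ ⟨i, 0, by simpa using hy⟩
      calc E' ≤ n := by omega
        _ ≤ 2 * M * n := by nlinarith
        _ ≤ _ := Nat.le_mul_of_pos_right _ h1
    · refine ⟨0, d₀, hd₀, ?_⟩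
      have : E' = 0 := by
        rw [hE', Finset.card_eq_zero]
        apply Finset.eq_empty_of_forall_notMem
        intro p hp
        rw [Finset.mem_filter] at hp
        exact hex ⟨p.1, hp.2.mono Set.inter_subset_left⟩
      omega
  rcases dc M T hT (fun i j => (C i ∩ C j).Nonempty) R h with h0 | ⟨i, t, ht, hle⟩
  · exact trivialcase h0
  · change E ≤ _ at hle
    set N := (Finset.univ.filter fun j => j ≠ i ∧ R i t j).card with hN
    by_cases hN0 : N = 0
    · apply trivialcase
      rw [hN0] at hle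
      omega
    · have hNpos : 0 < N := Nat.pos_of_ne_zero hN0
      obtain ⟨j, hj⟩ := Finset.card_pos.mp hNpos
      rw [Finset.mem_filter] at hj
      obtain ⟨x, d, hd, hi, hall⟩ := hline i t ht j hj.2.2
      refine ⟨x, d, hd, ?_⟩
      have hk : N + 1 ≤ (Finset.univ.filter fun i => ∃ s : ℝ, x + s • d ∈ C i).card := by
        have : insert i (Finset.univ.filter fun j => j ≠ i ∧ R i t j) ⊆
            (Finset.univ.filter fun i => ∃ s : ℝ, x + s • d ∈ C i) := by
          intro j' hj'
          rw [Finset.mem_insert] at hj'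
          rw [Finset.mem_filter]
          rcases hj' with rfl | hj'
          · exact ⟨Finset.mem_univ _, hi⟩
          · rw [Finset.mem_filter] at hj'
            exact ⟨Finset.mem_univ _, hall j' hj'.2.2⟩
        calc N + 1 = (insert i (Finset.univ.filter fun j => j ≠ i ∧ R i t j)).card := by
              rw [Finset.card_insert_of_notMem]; simp
          _ ≤ _ := Finset.card_le_card this
      calc E' ≤ n + E := hEE
        _ ≤ n + 2 * (n * M) * N := by omega
        _ ≤ 2 * M * n * (N + 1) := by nlinarith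
        _ ≤ _ := Nat.mul_le_mul_left _ hk

/-- A nonempty set of at most two points spans a line (through them). -/
lemma line_of_pair [Nontrivial V] (t : Finset V) (ht : t.Nonempty) (h2 : t.card ≤ 2) :
    ∃ x d : V, d ≠ 0 ∧ ∀ y ∈ convexHull ℝ (t : Set V), ∃ s : ℝ, x + s • d = y := by
  obtain ⟨a, b, rfl⟩ := pair_of_card_le_two t ht h2
  by_cases hab : a = b
  · subst hab
    obtain ⟨d₀, hd₀⟩ := exists_ne (0 : V)
    refine ⟨a, d₀, hd₀, fun y hy => ⟨0, ?_⟩⟩
    simp at hy
    simp [hy]
  · refine ⟨a, b - a, sub_ne_zero.mpr (Ne.symm hab), fun y hy => ?_⟩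
    simp only [Finset.coe_insert, Finset.coe_singleton, convexHull_pair] at hy
    obtain ⟨s, t, hs, ht, hst, rfl⟩ := hy
    refine ⟨t, ?_⟩
    have : s = 1 - t := by linarith
    subst this
    rw [smul_sub, sub_smul, one_smul]
    abel

/-- The exact bound for hulls of at most `m` points. -/
lemma vertex_bound [Nontrivial V] (hV : Module.finrank ℝ V ≤ 3) (m : ℕ) (hm : 2 ≤ m) (n : ℕ)
    (A : Fin n → Finset V) (hA : ∀ i, (A i).card ≤ m) :
    ∃ x d : V, d ≠ 0 ∧
      (Finset.univ.filter fun p : Fin n × Fin n =>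
        (convexHull ℝ (A p.1 : Set V) ∩ convexHull ℝ (A p.2 : Set V)).Nonempty).card ≤
        m * (m - 1) * n *
          (Finset.univ.filter fun i => ∃ s : ℝ, x + s • d ∈ convexHull ℝ (A i : Set V)).card := by
  have hM : 2 * m.choose 2 = m * (m - 1) := by
    rw [Nat.choose_two_right]
    exact Nat.mul_div_cancel' (Nat.even_mul_pred_self m).two_dvd
  have hM1 : 1 ≤ m.choose 2 := Nat.choose_pos hm
  rw [← hM]
  let T : Fin n → Finset (Finset V) := fun i =>
    if 2 ≤ (A i).card then (A i).powersetCard 2 else {A i}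
  let R : Fin n → Finset V → Fin n → Prop := fun i t j =>
    t.Nonempty ∧ t.card ≤ 2 ∧ (convexHull ℝ (t : Set V) ∩ convexHull ℝ (A j : Set V)).Nonempty
  have hTsub : ∀ i, ∀ t ∈ T i, t ⊆ A i := by
    intro i t ht
    simp only [T] at ht
    split_ifs at ht
    · exact (Finset.mem_powersetCard.mp ht).1
    · rw [Finset.mem_singleton] at ht; exact ht.subset
  refine line_of_dc (m.choose 2) hM1 (fun i => convexHull ℝ (A i : Set V)) T ?_ R ?_ ?_
  · intro i
    simp only [T]
    split_ifs
    · rw [Finset.card_powersetCard]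
      exact Nat.choose_le_choose 2 (hA i)
    · simpa using hM1
  · -- a segment of one of the two sets meets the other
    have aux : ∀ i j, (∃ a ∈ A i, ∃ a' ∈ A i,
        (segment ℝ a a' ∩ convexHull ℝ (A j : Set V)).Nonempty) → ∃ t ∈ T i, R i t j := by
      rintro i j ⟨a, ha, a', ha', y, hy, hyj⟩
      by_cases h2 : 2 ≤ (A i).card
      · -- a two-element set containing a, a'
        obtain ⟨t, h1, h3, h4⟩ : ∃ t : Finset V, {a, a'} ⊆ t ∧ t ⊆ A i ∧ t.card = 2 := by
          have hsub : ({a, a'} : Finset V) ⊆ A i := by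
            intro z hz
            simp only [Finset.mem_insert, Finset.mem_singleton] at hz
            rcases hz with rfl | rfl
            · exact ha
            · exact ha'
          exact Finset.exists_subsuperset_card_eq hsub Finset.card_le_two h2
        refine ⟨t, ?_, ?_, h4.le, y, ?_, hyj⟩
        · simp only [T, if_pos h2]
          exact Finset.mem_powersetCard.mpr ⟨h3, h4⟩
        · exact Finset.card_pos.mp (by omega)
        · have : convexHull ℝ (({a, a'} : Finset V) : Set V) ⊆ convexHull ℝ (t : Set V) :=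
            convexHull_mono (by exact_mod_cast h1)
          apply this
          simpa [convexHull_pair] using hy
      · refine ⟨A i, ?_, ⟨a, ha⟩, by omega, y, ?_, hyj⟩
        · simp only [T, if_neg h2, Finset.mem_singleton]
        · have : segment ℝ a a' ⊆ convexHull ℝ (A i : Set V) :=
            segment_subset_convexHull ha ha'
          exact this hy
    intro i j _ hij
    rcases edge_meets hV (A i) (A j) hij with h | h
    · exact Or.inl (aux i j h)
    · exact Or.inr (aux j i h)
  · intro i t ht j hR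
    obtain ⟨x, d, hd, hl⟩ := line_of_pair t hR.1 hR.2.1
    refine ⟨x, d, hd, ?_, ?_⟩
    · obtain ⟨a, ha⟩ := hR.1
      obtain ⟨s, hs⟩ := hl a (subset_convexHull ℝ _ ha)
      exact ⟨s, by rw [hs]; exact subset_convexHull ℝ _ (hTsub i t ht ha)⟩
    · rintro j' ⟨-, -, y, hy, hyj⟩
      obtain ⟨s, hs⟩ := hl y hy
      exact ⟨s, by rw [hs]; exact hyj⟩

/-- A finite set in a space of dimension at most `k` has a frame of at most `k` of its vectors in
which all its vectors have small coordinates. -/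
lemma frame (k : ℕ) : ∀ (W : Submodule ℝ V), Module.finrank ℝ W ≤ k →
    ∀ (K : Finset V), (∀ x ∈ K, x ∈ W) →
    ∃ e : Fin k → V, (∀ i, e i ∈ K ∨ e i = 0) ∧
      ∀ x ∈ K, ∃ t : Fin k → ℝ, ∑ i, |t i| ≤ 2 ^ k - 1 ∧ x = ∑ i, t i • e i := by
  induction k with
  | zero =>
    intro W hW K hK
    have hW0 : W = ⊥ := Submodule.finrank_eq_zero.mp (Nat.le_zero.mp hW)
    subst hW0
    refine ⟨fun i => i.elim0, fun i => i.elim0, fun x hx => ⟨fun i => i.elim0, ?_, ?_⟩⟩
    · simp
    · have := hK x hx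
      rw [Submodule.mem_bot] at this
      simp [this]
  | succ k ih =>
    intro W hW K hK
    by_cases hall : ∀ x ∈ K, x = 0
    · refine ⟨fun _ => 0, fun i => Or.inr rfl, fun x hx => ⟨fun _ => 0, ?_, ?_⟩⟩
      · simp only [abs_zero, Finset.sum_const_zero]
        have : (1 : ℝ) ≤ 2 ^ (k + 1) := one_le_pow₀ (by norm_num)
        linarith
      · simp [hall x hx]
    · push Not at hall
      obtain ⟨x0, hx0, hx0ne⟩ := hall
      obtain ⟨φ, hφ⟩ : ∃ φ : V →ₗ[ℝ] ℝ, φ x0 ≠ 0 := by
        by_contra hcon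
        push Not at hcon
        exact hx0ne ((Module.forall_dual_apply_eq_zero_iff ℝ x0).mp hcon)
      obtain ⟨e, he, hmax⟩ := Finset.exists_max_image K (fun x => |φ x|) ⟨x0, hx0⟩
      have hφe : φ e ≠ 0 := by
        intro h0
        have := hmax x0 hx0
        simp only [h0, abs_zero] at this
        exact hφ (abs_nonpos_iff.mp this)
      let r : V → V := fun x => x - (φ x / φ e) • e
      have hr0 : r 0 = 0 := by simp [r]
      let W' : Submodule ℝ V := W ⊓ LinearMap.ker φ
      have hW' : Module.finrank ℝ W' ≤ k := by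
        have hlt : W' < W := by
          refine lt_of_le_of_ne inf_le_left ?_
          intro heq
          have : e ∈ W' := by rw [heq]; exact hK e he
          exact hφe (by simpa using (Submodule.mem_inf.mp this).2)
        have := Submodule.finrank_lt_finrank_of_lt hlt
        omega
      obtain ⟨e', he', hco⟩ := ih W' hW' (K.image r) (by
        intro y hy
        rw [Finset.mem_image] at hy
        obtain ⟨x, hx, rfl⟩ := hy
        refine Submodule.mem_inf.mpr ⟨?_, ?_⟩
        · exact W.sub_mem (hK x hx) (W.smul_mem _ (hK e he))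
        · rw [LinearMap.mem_ker]
          simp only [r, map_sub, map_smul, smul_eq_mul]
          field_simp
          ring)
      have hpre : ∀ i, ∃ x, (x ∈ K ∨ x = 0) ∧ r x = e' i := by
        intro i
        rcases he' i with h | h
        · rw [Finset.mem_image] at h
          obtain ⟨x, hx, hxe⟩ := h
          exact ⟨x, Or.inl hx, hxe⟩
        · exact ⟨0, Or.inr rfl, by rw [hr0, h]⟩
      choose y hyK hyr using hpre
      refine ⟨Fin.cons e y, ?_, ?_⟩
      · intro i
        refine Fin.cases ?_ (fun j => ?_) i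
        · simp only [Fin.cons_zero]; exact Or.inl he
        · simp only [Fin.cons_succ]; exact hyK j
      · intro x hx
        obtain ⟨t, ht, hxt⟩ := hco (r x) (Finset.mem_image_of_mem r hx)
        refine ⟨Fin.cons (φ x / φ e - ∑ i, t i * (φ (y i) / φ e)) t, ?_, ?_⟩
        · rw [Fin.sum_univ_succ]
          simp only [Fin.cons_zero, Fin.cons_succ]
          have h1 : |φ x / φ e| ≤ 1 := by
            rw [abs_div, div_le_one (abs_pos.mpr hφe)]
            exact hmax x hx
          have h2 : ∀ i, |φ (y i) / φ e| ≤ 1 := by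
            intro i
            rw [abs_div, div_le_one (abs_pos.mpr hφe)]
            rcases hyK i with h | h
            · exact hmax _ h
            · rw [h]; simp
          have h3 : |∑ i, t i * (φ (y i) / φ e)| ≤ ∑ i, |t i| := by
            calc |∑ i, t i * (φ (y i) / φ e)| ≤ ∑ i, |t i * (φ (y i) / φ e)| :=
                  Finset.abs_sum_le_sum_abs _ _
              _ ≤ ∑ i, |t i| := by
                  apply Finset.sum_le_sum
                  intro i _
                  rw [abs_mul]
                  calc |t i| * |φ (y i) / φ e| ≤ |t i| * 1 := by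
                        gcongr; exact h2 i
                    _ = |t i| := mul_one _
          have h4 : |φ x / φ e - ∑ i, t i * (φ (y i) / φ e)| ≤ 1 + ∑ i, |t i| := by
            calc _ ≤ |φ x / φ e| + |∑ i, t i * (φ (y i) / φ e)| := abs_sub _ _
              _ ≤ _ := add_le_add h1 h3
          have h5 : (2 : ℝ) ^ (k + 1) = 2 * 2 ^ k := by ring
          rw [h5]
          linarith
        · rw [Fin.sum_univ_succ]
          simp only [Fin.cons_zero, Fin.cons_succ]
          have h6 : x = r x + (φ x / φ e) • e := by simp [r]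
          have h7 : ∑ i, t i • e' i = ∑ i, t i • y i - (∑ i, t i * (φ (y i) / φ e)) • e := by
            rw [Finset.sum_smul, ← Finset.sum_sub_distrib]
            apply Finset.sum_congr rfl
            intro i _
            rw [← hyr i]
            simp only [r, smul_sub, mul_smul]
          calc x = r x + (φ x / φ e) • e := h6
            _ = (∑ i, t i • y i - (∑ i, t i * (φ (y i) / φ e)) • e) + (φ x / φ e) • e := by
                rw [hxt, h7]
            _ = _ := by
                rw [sub_smul]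
                abel

/-- Approximation of the hull of a finite set from outside by a polytope with few vertices. -/
lemma approx (hV : Module.finrank ℝ V ≤ 3) (ε : ℝ) (hε : 0 < ε) (K : ℕ) (hK : 21 ≤ K * ε)
    (P : Finset V) : ∃ A : Finset V, A.card ≤ 6 * (2 * K + 1) ^ 3 ∧
      convexHull ℝ (P : Set V) ⊆ convexHull ℝ (A : Set V) ∧
      convexHull ℝ (A : Set V) ⊆ convexHull ℝ (P : Set V) +
        ε • (convexHull ℝ (P : Set V) - convexHull ℝ (P : Set V)) := by
  rcases P.eq_empty_or_nonempty with rfl | ⟨v0, hv0⟩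
  · exact ⟨∅, by simp, by simp, by simp⟩
  obtain ⟨e, he, hco⟩ := frame 3 (⊤ : Submodule ℝ V) (by rw [finrank_top]; exact hV)
    (P.image fun y => y - v0) (by simp)
  set C := convexHull ℝ (P : Set V) with hC
  have hCconv : Convex ℝ C := convex_convexHull ℝ _
  have hPC : ∀ y ∈ P, y ∈ C := fun y hy => subset_convexHull ℝ _ hy
  -- e i and its negative are differences of points of C
  have heC : ∀ i, e i ∈ C - C ∧ -e i ∈ C - C := by
    intro i
    rcases he i with h | h
    · rw [Finset.mem_image] at h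
      obtain ⟨y, hy, hye⟩ := h
      constructor
      · rw [← hye]; exact Set.sub_mem_sub (hPC y hy) (hPC v0 hv0)
      · rw [← hye, neg_sub]; exact Set.sub_mem_sub (hPC v0 hv0) (hPC y hy)
    · rw [h, neg_zero]
      have : (0 : V) ∈ C - C := by
        have := Set.sub_mem_sub (hPC v0 hv0) (hPC v0 hv0)
        rwa [sub_self] at this
      exact ⟨this, this⟩
  -- coordinates
  have hcoord : ∀ x ∈ C, ∃ t : Fin 3 → ℝ, ∑ i, |t i| ≤ 7 ∧ x = v0 + ∑ i, t i • e i := by
    have hS : Convex ℝ {x : V | ∃ t : Fin 3 → ℝ, ∑ i, |t i| ≤ 7 ∧ x = v0 + ∑ i, t i • e i} := by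
      rintro x ⟨t, ht, rfl⟩ y ⟨u, hu, rfl⟩ a b ha hb hab
      refine ⟨fun i => a * t i + b * u i, ?_, ?_⟩
      · calc ∑ i, |a * t i + b * u i| ≤ ∑ i, (a * |t i| + b * |u i|) := by
              apply Finset.sum_le_sum
              intro i _
              calc |a * t i + b * u i| ≤ |a * t i| + |b * u i| := abs_add_le _ _
                _ = a * |t i| + b * |u i| := by
                    rw [abs_mul, abs_mul, abs_of_nonneg ha, abs_of_nonneg hb]
          _ = a * ∑ i, |t i| + b * ∑ i, |u i| := by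
              rw [Finset.sum_add_distrib, Finset.mul_sum, Finset.mul_sum]
          _ ≤ a * 7 + b * 7 := by gcongr
          _ = 7 := by rw [← add_mul, hab, one_mul]
      · have : v0 = a • v0 + b • v0 := by rw [← add_smul, hab, one_smul]
        simp only [add_smul, Finset.sum_add_distrib, mul_smul, ← Finset.smul_sum]
        nth_rewrite 3 [this]
        rw [smul_add, smul_add]
        abel
    intro x hx
    refine convexHull_min ?_ hS hx
    intro y hy
    obtain ⟨t, ht, hyt⟩ := hco (y - v0) (Finset.mem_image_of_mem _ hy)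
    refine ⟨t, by norm_num at ht; exact ht, ?_⟩
    rw [← hyt]; abel
  choose! T hT7 hTx using hcoord
  let cell : V → Fin 3 → ℤ := fun x i => ⌊T x i * (3 / ε)⌋
  let Z : Finset (Fin 3 → ℤ) := Fintype.piFinset fun _ => Finset.Icc (-(K : ℤ)) K
  have hZcard : Z.card = (2 * K + 1) ^ 3 := by
    rw [Fintype.card_piFinset]
    simp only [Int.card_Icc, Finset.prod_const, Finset.card_univ, Fintype.card_fin]
    congr 1
    omega
  have hcellZ : ∀ x ∈ C, cell x ∈ Z := by
    intro x hx
    rw [Fintype.mem_piFinset]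
    intro i
    rw [Finset.mem_Icc]
    have h1 : |T x i| ≤ 7 := le_trans (Finset.single_le_sum (f := fun i => |T x i|)
      (fun j _ => abs_nonneg _) (Finset.mem_univ i)) (hT7 x hx)
    have h2 : |T x i * (3 / ε)| ≤ K := by
      rw [abs_mul, abs_of_pos (by positivity : 0 < 3 / ε)]
      calc |T x i| * (3 / ε) ≤ 7 * (3 / ε) := by gcongr
        _ = 21 / ε := by ring
        _ ≤ K := by rw [div_le_iff₀ hε]; exact hK
    rw [abs_le] at h2
    constructor
    · apply Int.le_floor.mpr
      push_cast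
      exact h2.1
    · have : (⌊T x i * (3 / ε)⌋ : ℝ) ≤ K := (Int.floor_le _).trans h2.2
      exact_mod_cast this
  have hrep : ∀ z : Fin 3 → ℤ, ∃ p : V, (∃ x ∈ C, cell x = z) → p ∈ C ∧ cell p = z := by
    intro z
    by_cases h : ∃ x ∈ C, cell x = z
    · obtain ⟨x, hx, hxz⟩ := h
      exact ⟨x, fun _ => ⟨hx, hxz⟩⟩
    · exact ⟨0, fun h' => absurd h' h⟩
  choose rep hrep using hrep
  let F : (Fin 3 → ℤ) → Finset V := fun z =>
    if ∃ x ∈ C, cell x = z then
      (Finset.univ.image fun i => rep z + ε • e i) ∪ (Finset.univ.image fun i => rep z - ε • e i)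
    else ∅
  refine ⟨Z.biUnion F, ?_, ?_, ?_⟩
  · calc (Z.biUnion F).card ≤ ∑ z ∈ Z, (F z).card := Finset.card_biUnion_le
      _ ≤ ∑ _z ∈ Z, 6 := by
          apply Finset.sum_le_sum
          intro z _
          simp only [F]
          split_ifs
          · calc _ ≤ _ := Finset.card_union_le _ _
              _ ≤ 3 + 3 := by
                  apply Nat.add_le_add
                  · exact Finset.card_image_le.trans (by simp)
                  · exact Finset.card_image_le.trans (by simp)
          · simp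
      _ = 6 * (2 * K + 1) ^ 3 := by rw [Finset.sum_const, hZcard, smul_eq_mul]; ring
  · intro x hx
    obtain ⟨hp, hpz⟩ := hrep (cell x) ⟨x, hx, rfl⟩
    set p := rep (cell x) with hpdef
    have hQ : ∀ i, p + ε • e i ∈ convexHull ℝ ((Z.biUnion F : Finset V) : Set V) ∧
        p - ε • e i ∈ convexHull ℝ ((Z.biUnion F : Finset V) : Set V) := by
      intro i
      have hF : F (cell x) = (Finset.univ.image fun i => rep (cell x) + ε • e i) ∪
          (Finset.univ.image fun i => rep (cell x) - ε • e i) := by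
        simp only [F]
        rw [if_pos ⟨x, hx, rfl⟩]
      constructor
      · apply subset_convexHull
        rw [Finset.mem_coe, Finset.mem_biUnion]
        refine ⟨cell x, hcellZ x hx, ?_⟩
        rw [hF]
        apply Finset.mem_union_left
        exact Finset.mem_image_of_mem _ (Finset.mem_univ i)
      · apply subset_convexHull
        rw [Finset.mem_coe, Finset.mem_biUnion]
        refine ⟨cell x, hcellZ x hx, ?_⟩
        rw [hF]
        apply Finset.mem_union_right
        exact Finset.mem_image_of_mem (fun i => rep (cell x) - ε • e i) (Finset.mem_univ i)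
    have hs : ∀ i, |3 * (T x i - T p i)| ≤ ε := by
      intro i
      have h1 : ⌊T p i * (3 / ε)⌋ = ⌊T x i * (3 / ε)⌋ := congrFun hpz i
      have h2 := Int.abs_sub_lt_one_of_floor_eq_floor h1.symm
      rw [← sub_mul, abs_mul, abs_of_pos (by positivity : 0 < 3 / ε)] at h2
      rw [abs_mul, abs_of_pos (by norm_num : (0 : ℝ) < 3)]
      have h3 : |T x i - T p i| * 3 < ε := by
        have := mul_lt_mul_of_pos_right h2 hε
        rw [one_mul] at this
        have h4 : |T x i - T p i| * (3 / ε) * ε = |T x i - T p i| * 3 := by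
          field_simp
        linarith
      linarith
    have hpt : ∀ i, p + (3 * (T x i - T p i)) • e i ∈
        convexHull ℝ ((Z.biUnion F : Finset V) : Set V) := by
      intro i
      have hcv := convex_convexHull ℝ ((Z.biUnion F : Finset V) : Set V)
      set s := 3 * (T x i - T p i) with hsdef
      have hsi := abs_le.mp (hs i)
      have := hcv (hQ i).1 (hQ i).2 (a := (ε + s) / (2 * ε)) (b := (ε - s) / (2 * ε))
        (div_nonneg (by linarith) (by linarith)) (div_nonneg (by linarith) (by linarith))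
        (by field_simp; ring)
      convert this using 1
      rw [smul_add, smul_sub, smul_smul, smul_smul]
      have h1 : p = ((ε + s) / (2 * ε)) • p + ((ε - s) / (2 * ε)) • p := by
        rw [← add_smul]
        have : (ε + s) / (2 * ε) + (ε - s) / (2 * ε) = 1 := by field_simp; ring
        rw [this, one_smul]
      have h2 : s • e i = ((ε + s) / (2 * ε) * ε) • e i - ((ε - s) / (2 * ε) * ε) • e i := by
        rw [← sub_smul]
        congr 1
        field_simp
        ring
      nth_rewrite 1 [h1]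
      rw [h2]
      abel
    have hxeq : x = ∑ i : Fin 3, (1 / 3 : ℝ) • (p + (3 * (T x i - T p i)) • e i) := by
      have hx' := hTx x hx
      have hp' := hTx p hp
      simp only [Fin.sum_univ_three] at hx' hp' ⊢
      have h1 : x - p = (T x 0 - T p 0) • e 0 + (T x 1 - T p 1) • e 1 + (T x 2 - T p 2) • e 2 := by
        nth_rewrite 1 [hx', hp']
        simp only [sub_smul]
        abel
      have h3 : ∀ (r : ℝ) (v : V), (1 / 3 : ℝ) • (3 * r) • v = r • v := by
        intro r v
        rw [smul_smul]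
        congr 1
        ring
      have h4 : p = (1 / 3 : ℝ) • p + (1 / 3 : ℝ) • p + (1 / 3 : ℝ) • p := by
        rw [← add_smul, ← add_smul]
        norm_num
      calc x = p + (x - p) := by abel
        _ = ((1 / 3 : ℝ) • p + (1 / 3 : ℝ) • p + (1 / 3 : ℝ) • p) +
            ((T x 0 - T p 0) • e 0 + (T x 1 - T p 1) • e 1 + (T x 2 - T p 2) • e 2) := by
            rw [← h4, h1]
        _ = _ := by
            simp only [smul_add, h3]
            abel
    rw [hxeq]
    exact (convex_convexHull ℝ ((Z.biUnion F : Finset V) : Set V)).sum_mem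
      (fun i _ => by norm_num) (by simp) (fun i _ => hpt i)
  · apply convexHull_min
    · intro q hq
      rw [Finset.mem_coe, Finset.mem_biUnion] at hq
      obtain ⟨z, -, hq⟩ := hq
      simp only [F] at hq
      split_ifs at hq with hz
      · obtain ⟨hp, -⟩ := hrep z hz
        rw [Finset.mem_union, Finset.mem_image, Finset.mem_image] at hq
        rcases hq with ⟨i, -, rfl⟩ | ⟨i, -, rfl⟩
        · exact Set.add_mem_add hp (Set.smul_mem_smul_set (heC i).1)
        · have : rep z - ε • e i = rep z + ε • (-e i) := by rw [smul_neg, sub_eq_add_neg]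
          rw [this]
          exact Set.add_mem_add hp (Set.smul_mem_smul_set (heC i).2)
      · simp at hq
    · exact hCconv.add ((hCconv.sub hCconv).smul ε)

end General

/-- Two of a set of vectors spanning a space of dimension at least two are independent. -/
lemma two_of_span {E : Type*} [AddCommGroup E] [Module ℝ E] [FiniteDimensional ℝ E]
    {ι : Type*} (g : ι → E) (S : Set ι)
    (h : 2 ≤ Module.finrank ℝ (Submodule.span ℝ (g '' S))) :
    ∃ σ ∈ S, ∃ τ ∈ S, σ ≠ τ ∧ Module.finrank ℝ (Submodule.span ℝ {g σ, g τ}) = 2 := by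
  obtain ⟨b, hbs, hspan, hli⟩ := exists_linearIndependent ℝ (g '' S)
  have hne : ¬ b.Subsingleton := by
    intro hb
    rw [← hspan] at h
    rcases hb.eq_empty_or_singleton with rfl | ⟨u, rfl⟩
    · rw [Submodule.span_empty, finrank_bot] at h; omega
    · have : Module.finrank ℝ (Submodule.span ℝ {u}) ≤ 1 := by
        by_cases hu : u = 0
        · subst hu; rw [Submodule.span_zero_singleton, finrank_bot]; omega
        · rw [finrank_span_singleton hu]
      omega
  rw [Set.not_subsingleton_iff] at hne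
  obtain ⟨u, hu, w, hw, huw⟩ := hne
  obtain ⟨σ, hσ, hσu⟩ := hbs hu
  obtain ⟨τ, hτ, hτw⟩ := hbs hw
  refine ⟨σ, hσ, τ, hτ, ?_, ?_⟩
  · rintro rfl; exact huw (hσu.symm.trans hτw)
  · rw [hσu, hτw]
    have hli' : LinearIndepOn ℝ id b := hli
    have hli2 : LinearIndepOn ℝ id ({u, w} : Set E) := by
      refine hli'.mono ?_
      intro z hz
      rcases hz with rfl | rfl
      · exact hu
      · exact hw
    have := finrank_span_set_eq_card hli2
    rw [this]
    simp [Set.toFinset_insert, Finset.card_pair huw]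

section Inner

variable {E : Type*} [NormedAddCommGroup E] [InnerProductSpace ℝ E] [FiniteDimensional ℝ E]

/-- If two polyhedra meet and their intersection is compact, at some common point the active
constraints of one of the two have rank at least two. -/
lemma rank_two (hE : Module.finrank ℝ E = 3) {ι : Type*} [Finite ι]
    (g g' : ι → E) (h h' : ι → ℝ)
    (hc : IsCompact ({x | ∀ σ, ⟪g σ, x⟫ ≤ h σ} ∩ {x | ∀ σ, ⟪g' σ, x⟫ ≤ h' σ}))
    (hne : ({x | ∀ σ, ⟪g σ, x⟫ ≤ h σ} ∩ {x | ∀ σ, ⟪g' σ, x⟫ ≤ h' σ}).Nonempty) :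
    ∃ x : E, (∀ σ, ⟪g σ, x⟫ ≤ h σ) ∧ (∀ σ, ⟪g' σ, x⟫ ≤ h' σ) ∧
      (2 ≤ Module.finrank ℝ (Submodule.span ℝ (g '' {σ | ⟪g σ, x⟫ = h σ})) ∨
       2 ≤ Module.finrank ℝ (Submodule.span ℝ (g' '' {σ | ⟪g' σ, x⟫ = h' σ}))) := by
  obtain ⟨x, hxK, hext⟩ := hc.extremePoints_nonempty hne
  refine ⟨x, hxK.1, hxK.2, ?_⟩
  set U := Submodule.span ℝ (g '' {σ | ⟪g σ, x⟫ = h σ}) with hU
  set U' := Submodule.span ℝ (g' '' {σ | ⟪g' σ, x⟫ = h' σ}) with hU'
  have htop : U ⊔ U' = ⊤ := by
    by_contra hcon
    have hbot : (U ⊔ U')ᗮ ≠ ⊥ := by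
      intro hb
      exact hcon ((Submodule.orthogonal_eq_bot_iff).mp hb)
    obtain ⟨v, hv, hv0⟩ := Submodule.exists_mem_ne_zero_of_ne_bot hbot
    have hvU : ∀ u ∈ U, ⟪u, v⟫ = 0 := fun u hu =>
      (Submodule.mem_orthogonal _ v).mp hv u (Submodule.mem_sup_left hu)
    have hvU' : ∀ u ∈ U', ⟪u, v⟫ = 0 := fun u hu =>
      (Submodule.mem_orthogonal _ v).mp hv u (Submodule.mem_sup_right hu)
    have hev : ∀ (G : ι → E) (H : ι → ℝ), (∀ σ, ⟪G σ, x⟫ ≤ H σ) →
        (∀ σ, ⟪G σ, x⟫ = H σ → ⟪G σ, v⟫ = 0) →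
        ∀ᶠ r : ℝ in 𝓝 0, ∀ σ, ⟪G σ, x + r • v⟫ ≤ H σ := by
      intro G H hle hz
      rw [Filter.eventually_all]
      intro σ
      rcases (hle σ).eq_or_lt with he | hlt
      · refine Filter.Eventually.of_forall fun r => ?_
        rw [inner_add_right, inner_smul_right, hz σ he, mul_zero, add_zero]
        exact he.le
      · have hcont : Continuous fun r : ℝ => ⟪G σ, x + r • v⟫ := by fun_prop
        have h0 : ⟪G σ, x + (0 : ℝ) • v⟫ < H σ := by simpa using hlt
        have := (hcont.tendsto 0).eventually (gt_mem_nhds h0)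
        exact this.mono fun r hr => hr.le
    have e1 := hev g h hxK.1 (fun σ hσ => hvU _ (Submodule.subset_span ⟨σ, hσ, rfl⟩))
    have e2 := hev g' h' hxK.2 (fun σ hσ => hvU' _ (Submodule.subset_span ⟨σ, hσ, rfl⟩))
    have e3 := e1.and e2
    have e4 : ∀ᶠ r : ℝ in 𝓝 0, (∀ σ, ⟪g σ, x + (-r) • v⟫ ≤ h σ) ∧
        ∀ σ, ⟪g' σ, x + (-r) • v⟫ ≤ h' σ := by
      have : Filter.Tendsto (fun r : ℝ => -r) (𝓝 0) (𝓝 0) := by
        have := (continuous_neg (G := ℝ)).tendsto 0
        simpa using this
      exact this.eventually e3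
    have e5 := (e3.and e4)
    have e6 : ∀ᶠ r : ℝ in 𝓝[>] 0, ((∀ σ, ⟪g σ, x + r • v⟫ ≤ h σ) ∧
        ∀ σ, ⟪g' σ, x + r • v⟫ ≤ h' σ) ∧ ((∀ σ, ⟪g σ, x + (-r) • v⟫ ≤ h σ) ∧
        ∀ σ, ⟪g' σ, x + (-r) • v⟫ ≤ h' σ) := e5.filter_mono nhdsWithin_le_nhds
    obtain ⟨r, hr, hrpos⟩ := (e6.and self_mem_nhdsWithin).exists
    have hr0 : (0 : ℝ) < r := hrpos
    have hmem1 : x + r • v ∈ ({x | ∀ σ, ⟪g σ, x⟫ ≤ h σ} ∩ {x | ∀ σ, ⟪g' σ, x⟫ ≤ h' σ}) := hr.1
    have hmem2 : x + (-r) • v ∈ ({x | ∀ σ, ⟪g σ, x⟫ ≤ h σ} ∩ {x | ∀ σ, ⟪g' σ, x⟫ ≤ h' σ}) := hr.2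
    have hopen : x ∈ openSegment ℝ (x + r • v) (x + (-r) • v) := by
      refine ⟨1/2, 1/2, by norm_num, by norm_num, by norm_num, ?_⟩
      rw [smul_add, smul_add, smul_smul, smul_smul]
      have : (1/2 : ℝ) • x + (1/2 : ℝ) • x = x := by rw [← add_smul]; norm_num
      calc (1/2 : ℝ) • x + (1/2 * r) • v + ((1/2 : ℝ) • x + (1/2 * -r) • v)
          = ((1/2 : ℝ) • x + (1/2 : ℝ) • x) + ((1/2 * r) • v + (1/2 * -r) • v) := by abel
        _ = x + (0 : ℝ) • v := by rw [this, ← add_smul]; congr 2; ring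
        _ = x := by simp
    have := hext hmem1 hmem2 hopen
    have hrv : r • v = 0 := by simpa using this
    rcases smul_eq_zero.mp hrv with h0 | h0
    · exact hr0.ne' h0
    · exact hv0 h0
  have hsum : 3 ≤ Module.finrank ℝ U + Module.finrank ℝ U' := by
    have h1 := Submodule.finrank_add_le_finrank_add_finrank U U'
    rw [htop, finrank_top, hE] at h1
    exact h1
  omega

/-- The exact bound for polyhedra given by `m` linear inequalities each. -/
lemma facet_bound (m n : ℕ) (a : Fin n → Fin m → EuclideanSpace ℝ (Fin 3))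
    (b : Fin n → Fin m → ℝ) :
    ∃ x d : EuclideanSpace ℝ (Fin 3), d ≠ 0 ∧
      (Finset.univ.filter fun p : Fin n × Fin n =>
        ({x | ∀ s, ⟪a p.1 s, x⟫ ≤ b p.1 s} ∩ {x | ∀ s, ⟪a p.2 s, x⟫ ≤ b p.2 s} :
          Set (EuclideanSpace ℝ (Fin 3))).Nonempty).card ≤
        (m + 4) * (m + 3) * n *
          (Finset.univ.filter fun i => ∃ s : ℝ, x + s • d ∈
            {x : EuclideanSpace ℝ (Fin 3) | ∀ s, ⟪a i s, x⟫ ≤ b i s}).card := by
  set C : Fin n → Set (EuclideanSpace ℝ (Fin 3)) := fun i => {x | ∀ s, ⟪a i s, x⟫ ≤ b i s}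
    with hCdef
  -- common points and a box
  have hpt : ∀ p : Fin n × Fin n, ∃ y : EuclideanSpace ℝ (Fin 3),
      (C p.1 ∩ C p.2).Nonempty → y ∈ C p.1 ∩ C p.2 := by
    intro p
    by_cases h : (C p.1 ∩ C p.2).Nonempty
    · obtain ⟨y, hy⟩ := h
      exact ⟨y, fun _ => hy⟩
    · exact ⟨0, fun h' => absurd h' h⟩
  choose P hP using hpt
  obtain ⟨r, hr⟩ : ∃ r : ℝ, ∀ p : Fin n × Fin n, ∀ c : Fin 3, |P p c| ≤ r := by
    refine ⟨∑ p : Fin n × Fin n, ∑ c : Fin 3, |P p c|, fun p c => ?_⟩
    calc |P p c| ≤ ∑ c : Fin 3, |P p c| :=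
          Finset.single_le_sum (f := fun c => |P p c|) (fun _ _ => abs_nonneg _) (Finset.mem_univ c)
      _ ≤ _ := Finset.single_le_sum (f := fun p => ∑ c : Fin 3, |P p c|)
          (fun _ _ => Finset.sum_nonneg fun _ _ => abs_nonneg _) (Finset.mem_univ p)
  let u : Fin 3 → EuclideanSpace ℝ (Fin 3) := fun c => EuclideanSpace.single c (1 : ℝ)
  have hu : ∀ c (x : EuclideanSpace ℝ (Fin 3)), ⟪u c, x⟫ = x c := by
    intro c x; simp [u, EuclideanSpace.inner_single_left]
  let g0 : Fin 4 → EuclideanSpace ℝ (Fin 3) := Fin.cons (u 0 + u 1 + u 2) fun c => -u c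
  let h0 : Fin 4 → ℝ := Fin.cons (3 * r) fun _ => r
  let G : Fin n → (Fin m ⊕ Fin 4) → EuclideanSpace ℝ (Fin 3) := fun i => Sum.elim (a i) g0
  let H : Fin n → (Fin m ⊕ Fin 4) → ℝ := fun i => Sum.elim (b i) h0
  let D : Fin n → Set (EuclideanSpace ℝ (Fin 3)) := fun i => {x | ∀ σ, ⟪G i σ, x⟫ ≤ H i σ}
  have hbox : ∀ x : EuclideanSpace ℝ (Fin 3),
      (∀ σ, ⟪g0 σ, x⟫ ≤ h0 σ) ↔ (x 0 + x 1 + x 2 ≤ 3 * r ∧ ∀ c, -(x c) ≤ r) := by
    intro x
    rw [Fin.forall_fin_succ]
    simp only [g0, h0, Fin.cons_zero, Fin.cons_succ, inner_add_left, inner_neg_left, hu]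
  have hDC : ∀ i, D i ⊆ C i := by
    intro i x hx s
    exact hx (Sum.inl s)
  have hDne : ∀ p : Fin n × Fin n, (C p.1 ∩ C p.2).Nonempty → P p ∈ D p.1 ∩ D p.2 := by
    intro p hp
    have h1 := hP p hp
    have h2 : ∀ σ, ⟪g0 σ, P p⟫ ≤ h0 σ := by
      rw [hbox]
      have hc := fun c => abs_le.mp (hr p c)
      refine ⟨?_, fun c => ?_⟩
      · linarith [(hc 0).2, (hc 1).2, (hc 2).2]
      · linarith [(hc c).1]
    constructor
    · rintro (s | s)
      · exact h1.1 s
      · exact h2 s
    · rintro (s | s)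
      · exact h1.2 s
      · exact h2 s
  have hDcompact : ∀ i j, IsCompact (D i ∩ D j) := by
    intro i j
    apply Metric.isCompact_of_isClosed_isBounded
    · have hcl : ∀ k, IsClosed (D k) := by
        intro k
        have : D k = ⋂ σ, {x | ⟪G k σ, x⟫ ≤ H k σ} := by
          ext x; simp [D]
        rw [this]
        exact isClosed_iInter fun σ => isClosed_le (by fun_prop) continuous_const
      exact (hcl i).inter (hcl j)
    · rw [isBounded_iff_forall_norm_le]
      refine ⟨Real.sqrt (3 * (5 * r) ^ 2), ?_⟩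
      rintro x ⟨hx, -⟩
      have hb := (hbox x).mp (fun σ => hx (Sum.inr σ))
      have b0 := hb.2 0
      have b1 := hb.2 1
      have b2 := hb.2 2
      have hc : ∀ c, (x c) ^ 2 ≤ (5 * r) ^ 2 := by
        intro c
        have hr0 : 0 ≤ r := by linarith [hb.1]
        apply sq_le_sq'
        · fin_cases c <;> simp <;> linarith
        · fin_cases c <;> simp <;> linarith [hb.1]
      rw [EuclideanSpace.norm_eq]
      apply Real.sqrt_le_sqrt
      rw [Fin.sum_univ_three]
      simp only [Real.norm_eq_abs, sq_abs]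
      linarith [hc 0, hc 1, hc 2]
  let T : Fin n → Finset (Finset (Fin m ⊕ Fin 4)) := fun _ => Finset.univ.powersetCard 2
  let R : Fin n → Finset (Fin m ⊕ Fin 4) → Fin n → Prop := fun i t j =>
    Module.finrank ℝ (Submodule.span ℝ (G i '' (t : Set (Fin m ⊕ Fin 4)))) = 2 ∧
      ∃ x ∈ D i ∩ D j, ∀ σ ∈ t, ⟪G i σ, x⟫ = H i σ
  have hM : 2 * (m + 4).choose 2 = (m + 4) * (m + 3) := by
    rw [Nat.choose_two_right]
    exact Nat.mul_div_cancel' (Nat.even_mul_pred_self (m + 4)).two_dvd
  have hM1 : 1 ≤ (m + 4).choose 2 := Nat.choose_pos (by omega)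
  have hmain := line_of_dc (V := EuclideanSpace ℝ (Fin 3)) ((m + 4).choose 2) hM1 D T (by
      intro i
      simp only [T]
      rw [Finset.card_powersetCard]
      simp) R (by
      -- the pair lemma
      have aux : ∀ i j (x : EuclideanSpace ℝ (Fin 3)), x ∈ D i → x ∈ D j →
          2 ≤ Module.finrank ℝ (Submodule.span ℝ (G i '' {σ | ⟪G i σ, x⟫ = H i σ})) →
          ∃ t ∈ T i, R i t j := by
        intro i j x hxi hxj hf
        obtain ⟨σ, hσ, τ, hτ, hne, hfr⟩ := two_of_span (G i) _ hf
        refine ⟨{σ, τ}, ?_, ?_, x, ⟨hxi, hxj⟩, ?_⟩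
        · simp only [T, Finset.mem_powersetCard]
          exact ⟨Finset.subset_univ _, Finset.card_pair hne⟩
        · rw [Finset.coe_pair, Set.image_pair]
          exact hfr
        · intro ρ hρ
          simp only [Finset.mem_insert, Finset.mem_singleton] at hρ
          rcases hρ with rfl | rfl
          · exact hσ
          · exact hτ
      intro i j _ hij
      obtain ⟨x, hx1, hx2, hor⟩ := rank_two (E := EuclideanSpace ℝ (Fin 3)) (by simp)
        (G i) (G j) (H i) (H j) (hDcompact i j) hij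
      rcases hor with hor | hor
      · exact Or.inl (aux i j x hx1 hx2 hor)
      · exact Or.inr (aux j i x hx2 hx1 hor)) (by
      rintro i t - j ⟨hfr, x, hx, hxt⟩
      set W := Submodule.span ℝ (G i '' (t : Set (Fin m ⊕ Fin 4))) with hW
      have hW1 : Module.finrank ℝ Wᗮ = 1 := by
        have := W.finrank_add_finrank_orthogonal
        rw [hfr] at this
        simp at this
        omega
      obtain ⟨d, hd0, hd⟩ := finrank_eq_one_iff'.mp hW1
      refine ⟨x, d, by simpa using hd0, ⟨0, by simpa using hx.1⟩, ?_⟩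
      rintro j' ⟨-, y, hy, hyt⟩
      have hmem : y - x ∈ Wᗮ := by
        rw [hW, Submodule.mem_orthogonal]
        intro w hw
        refine Submodule.span_induction ?_ ?_ ?_ ?_ hw
        · rintro _ ⟨σ, hσ, rfl⟩
          rw [inner_sub_right, hyt σ hσ, hxt σ hσ, sub_self]
        · simp
        · intro v w _ _ hv hw
          rw [inner_add_left, hv, hw, add_zero]
        · intro s v _ hv
          rw [inner_smul_left, hv, mul_zero]
      obtain ⟨s, hs⟩ := hd ⟨y - x, hmem⟩
      refine ⟨s, ?_⟩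
      have : s • (d : EuclideanSpace ℝ (Fin 3)) = y - x := congrArg Subtype.val hs
      rw [this, add_sub_cancel]
      exact hy.2)
  obtain ⟨x, d, hd, hle⟩ := hmain
  refine ⟨x, d, hd, ?_⟩
  rw [hM] at hle
  calc (Finset.univ.filter fun p : Fin n × Fin n => (C p.1 ∩ C p.2).Nonempty).card
      ≤ (Finset.univ.filter fun p : Fin n × Fin n => (D p.1 ∩ D p.2).Nonempty).card := by
        apply Finset.card_le_card
        intro p hp
        rw [Finset.mem_filter] at hp ⊢
        exact ⟨hp.1, P p, hDne p hp.2⟩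
    _ ≤ _ := hle
    _ ≤ (m + 4) * (m + 3) * n * (Finset.univ.filter fun i => ∃ s : ℝ, x + s • d ∈ C i).card := by
        apply Nat.mul_le_mul_left
        apply Finset.card_le_card
        intro i hi
        rw [Finset.mem_filter] at hi ⊢
        obtain ⟨s, hs⟩ := hi.2
        exact ⟨hi.1, s, hDC i hs⟩

end Inner

/-- The bound for arbitrary convex sets, for the `ε`-enlargements `C i + ε • (C i - C i)`. -/
lemma approx_bound (ε : ℝ) (hε : 0 < ε) (hε1 : ε ≤ 1) (n : ℕ)
    (C : Fin n → Set (EuclideanSpace ℝ (Fin 3))) (hC : ∀ i, Convex ℝ (C i)) :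
    ∃ x d : EuclideanSpace ℝ (Fin 3), d ≠ 0 ∧
      (ε / 100) ^ 6 *
        ((Finset.univ.filter fun p : Fin n × Fin n => (C p.1 ∩ C p.2).Nonempty).card : ℝ) ≤
        n * ((Finset.univ.filter fun i => ∃ s : ℝ, x + s • d ∈ C i + ε • (C i - C i)).card : ℝ) := by
  have hpt : ∀ p : Fin n × Fin n, ∃ y : EuclideanSpace ℝ (Fin 3),
      (C p.1 ∩ C p.2).Nonempty → y ∈ C p.1 ∩ C p.2 := by
    intro p
    by_cases h : (C p.1 ∩ C p.2).Nonempty
    · obtain ⟨y, hy⟩ := h
      exact ⟨y, fun _ => hy⟩
    · exact ⟨0, fun h' => absurd h' h⟩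
  choose y hy using hpt
  let P : Fin n → Finset (EuclideanSpace ℝ (Fin 3)) := fun i =>
    (Finset.univ.filter fun q : Fin n × Fin n =>
      (q.1 = i ∨ q.2 = i) ∧ (C q.1 ∩ C q.2).Nonempty).image y
  have hPC : ∀ i, convexHull ℝ (P i : Set (EuclideanSpace ℝ (Fin 3))) ⊆ C i := by
    intro i
    apply convexHull_min _ (hC i)
    intro z hz
    rw [Finset.mem_coe, Finset.mem_image] at hz
    obtain ⟨q, hq, rfl⟩ := hz
    rw [Finset.mem_filter] at hq
    obtain ⟨-, hq1, hq2⟩ := hq
    have := hy q hq2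
    rcases hq1 with rfl | rfl
    · exact this.1
    · exact this.2
  obtain ⟨K, hK1, hK2⟩ : ∃ K : ℕ, 21 ≤ (K : ℝ) * ε ∧ (K : ℝ) * ε ≤ 22 := by
    refine ⟨⌈21 / ε⌉₊, ?_, ?_⟩
    · have := Nat.le_ceil (21 / ε)
      calc (21 : ℝ) = 21 / ε * ε := by field_simp
        _ ≤ _ := by gcongr
    · have := (Nat.ceil_lt_add_one (by positivity : (0 : ℝ) ≤ 21 / ε)).le
      calc (⌈21 / ε⌉₊ : ℝ) * ε ≤ (21 / ε + 1) * ε := by gcongr
        _ = 21 + ε := by field_simp
        _ ≤ 22 := by linarith
  have hA := fun i => approx (V := EuclideanSpace ℝ (Fin 3)) (by simp) ε hε K hK1 (P i)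
  choose A hAcard hPA hAP using hA
  set m := 6 * (2 * K + 1) ^ 3 with hm
  have hm2 : 2 ≤ m := by
    have : 1 ≤ (2 * K + 1) ^ 3 := Nat.one_le_pow _ _ (by omega)
    omega
  obtain ⟨x, d, hd, hle⟩ := vertex_bound (V := EuclideanSpace ℝ (Fin 3)) (by simp) m hm2 n A hAcard
  refine ⟨x, d, hd, ?_⟩
  set k := (Finset.univ.filter fun i => ∃ s : ℝ, x + s • d ∈ C i + ε • (C i - C i)).card with hk
  have h1 : (Finset.univ.filter fun p : Fin n × Fin n => (C p.1 ∩ C p.2).Nonempty).card ≤
      (Finset.univ.filter fun p : Fin n × Fin n =>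
        (convexHull ℝ (A p.1 : Set (EuclideanSpace ℝ (Fin 3))) ∩
          convexHull ℝ (A p.2 : Set (EuclideanSpace ℝ (Fin 3)))).Nonempty).card := by
    apply Finset.card_le_card
    intro p hp
    rw [Finset.mem_filter] at hp ⊢
    have hyP : ∀ i, (p.1 = i ∨ p.2 = i) → y p ∈ convexHull ℝ (A i : Set _) := by
      intro i hi
      apply hPA i
      apply subset_convexHull
      rw [Finset.mem_coe, Finset.mem_image]
      refine ⟨p, ?_, rfl⟩
      rw [Finset.mem_filter]
      exact ⟨Finset.mem_univ _, hi, hp.2⟩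
    exact ⟨hp.1, y p, hyP p.1 (Or.inl rfl), hyP p.2 (Or.inr rfl)⟩
  have h2 : (Finset.univ.filter fun i => ∃ s : ℝ, x + s • d ∈
      convexHull ℝ (A i : Set (EuclideanSpace ℝ (Fin 3)))).card ≤ k := by
    apply Finset.card_le_card
    intro i hi
    rw [Finset.mem_filter] at hi ⊢
    obtain ⟨s, hs⟩ := hi.2
    refine ⟨hi.1, s, ?_⟩
    exact Set.add_subset_add (hPC i) (Set.smul_set_mono (Set.sub_subset_sub (hPC i) (hPC i)))
      (hAP i hs)
  have h3 : (Finset.univ.filter fun p : Fin n × Fin n => (C p.1 ∩ C p.2).Nonempty).card ≤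
      m * m * n * k := by
    calc _ ≤ _ := h1
      _ ≤ _ := hle
      _ ≤ m * m * n * k := by
          apply Nat.mul_le_mul _ h2
          apply Nat.mul_le_mul_right
          exact Nat.mul_le_mul_left _ (Nat.sub_le _ _)
  have h4 : ((Finset.univ.filter fun p : Fin n × Fin n => (C p.1 ∩ C p.2).Nonempty).card : ℝ) ≤
      (m : ℝ) * m * n * k := by exact_mod_cast h3
  have hKε : (2 * (K : ℝ) + 1) * ε ≤ 45 := by nlinarith
  have h5 : (ε / 100) ^ 6 * ((m : ℝ) * m) ≤ 1 := by
    have e1 : (m : ℝ) = 6 * (2 * (K : ℝ) + 1) ^ 3 := by rw [hm]; push_cast; ring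
    have e2 : (ε / 100) ^ 6 * ((m : ℝ) * m) = 36 / 100 ^ 6 * ((2 * (K : ℝ) + 1) * ε) ^ 6 := by
      rw [e1]; ring
    rw [e2]
    calc 36 / 100 ^ 6 * ((2 * (K : ℝ) + 1) * ε) ^ 6 ≤ 36 / 100 ^ 6 * (45 : ℝ) ^ 6 := by
          gcongr
      _ ≤ 1 := by norm_num
  calc (ε / 100) ^ 6 *
        ((Finset.univ.filter fun p : Fin n × Fin n => (C p.1 ∩ C p.2).Nonempty).card : ℝ)
      ≤ (ε / 100) ^ 6 * ((m : ℝ) * m * n * k) := by gcongr
    _ = (ε / 100) ^ 6 * ((m : ℝ) * m) * (n * k) := by ring
    _ ≤ 1 * (n * k) := by gcongr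
    _ = n * k := one_mul _

end Pool.Agent.MP_179466_co
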