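import Mathlib

open scoped BigOperators Classical

namespace Pool.Agent.MP_179466_co

/-- the step: Jensen -/
lemma jensen_step {X Z : Type} [Fintype X] [Fintype Z] (R : X → Z → Prop) (N : ℕ) (β : ℝ)
    (hβ : 0 ≤ β)
    (h : β * Fintype.card X * Fintype.card Z ≤
      ((Finset.univ.filter fun p : X × Z => R p.1 p.2).card : ℝ)) :
    β ^ N * (Fintype.card X : ℝ) ^ N * Fintype.card Z ≤
      ((Finset.univ.filter fun p : (Fin N → X) × Z => ∀ a, R (p.1 a) p.2).card : ℝ) := by
  set d : Z → ℕ := fun z => (Finset.univ.filter fun x => R x z).card with hd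
  have h1 : (Finset.univ.filter fun p : X × Z => R p.1 p.2).card = ∑ z, d z := by
    rw [Finset.card_filter, Fintype.sum_prod_type_right]
    refine Finset.sum_congr rfl fun z _ => ?_
    show _ = (Finset.univ.filter fun x => R x z).card
    rw [Finset.card_filter]
  have h2 : (Finset.univ.filter fun p : (Fin N → X) × Z => ∀ a, R (p.1 a) p.2).card =
      ∑ z, d z ^ N := by
    rw [Finset.card_filter, Fintype.sum_prod_type_right]
    refine Finset.sum_congr rfl fun z _ => ?_
    have e : (Finset.univ.filter fun y : Fin N → X => ∀ a, R (y a) z) =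
        Fintype.piFinset fun _ : Fin N => Finset.univ.filter fun x => R x z := by
      ext y
      simp [Fintype.mem_piFinset]
    have e2 : (Finset.univ.filter fun y : Fin N → X => ∀ a, R (y a) z).card = d z ^ N := by
      rw [e, Fintype.card_piFinset]
      simp [hd]
    rw [← e2, Finset.card_filter]
  rcases isEmpty_or_nonempty Z with hZ | hZ
  · simp
  have hZ0 : (0:ℝ) < Fintype.card Z := by exact_mod_cast Fintype.card_pos
  rw [h1] at h
  rw [h2]
  have hJ := Real.pow_arith_mean_le_arith_mean_pow (Finset.univ : Finset Z)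
    (fun _ => 1 / (Fintype.card Z : ℝ)) (fun z => (d z : ℝ)) (fun _ _ => by positivity)
    (by rw [Finset.sum_const, Finset.card_univ, nsmul_eq_mul]; field_simp)
    (fun _ _ => by positivity) N
  rw [← Finset.mul_sum, ← Finset.mul_sum] at hJ
  have h3 : β * Fintype.card X ≤ 1 / (Fintype.card Z : ℝ) * ∑ z, (d z : ℝ) := by
    rw [one_div, inv_mul_eq_div, le_div_iff₀ hZ0]
    push_cast at h
    exact h
  have h4 : (β * Fintype.card X) ^ N ≤ 1 / (Fintype.card Z : ℝ) * ∑ z, (d z : ℝ) ^ N :=
    (pow_le_pow_left₀ (by positivity) h3 N).trans hJ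
  rw [one_div, inv_mul_eq_div, le_div_iff₀ hZ0, mul_pow] at h4
  push_cast
  exact h4

/-- blowing up all coordinates -/
lemma blowup (N : ℕ) (ι : Type) [Fintype ι] : ∀ (q : ℕ) (Y : Type) [Fintype Y] (β : ℝ), 0 ≤ β →
    ∀ R : (Fin q → ι) → Y → Prop,
    β * (Fintype.card ι : ℝ) ^ q * Fintype.card Y ≤
      ((Finset.univ.filter fun p : (Fin q → ι) × Y => R p.1 p.2).card : ℝ) →
    β ^ (N ^ q) * (Fintype.card ι : ℝ) ^ (q * N) * Fintype.card Y ≤
      ((Finset.univ.filter fun p : (Fin q → Fin N → ι) × Y =>
        ∀ g : Fin q → Fin N, R (fun s => p.1 s (g s)) p.2).card : ℝ) := by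
  intro q
  induction q with
  | zero =>
    intro Y _ β hβ R h
    have e : (Finset.univ.filter fun p : (Fin 0 → Fin N → ι) × Y =>
        ∀ g : Fin 0 → Fin N, R (fun s => p.1 s (g s)) p.2).card =
        (Finset.univ.filter fun p : (Fin 0 → ι) × Y => R p.1 p.2).card := by
      refine Finset.card_bij' (fun p _ => (Fin.elim0, p.2)) (fun p _ => (Fin.elim0, p.2))
        ?_ ?_ ?_ ?_
      · intro p hp
        rw [Finset.mem_filter] at hp ⊢
        refine ⟨Finset.mem_univ _, ?_⟩
        have h0 := hp.2 Fin.elim0
        have e : (fun s => p.1 s ((Fin.elim0 : Fin 0 → Fin N) s)) = (Fin.elim0 : Fin 0 → ι) :=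
          funext fun s => s.elim0
        rw [e] at h0
        exact h0
      · intro p hp
        rw [Finset.mem_filter] at hp ⊢
        refine ⟨Finset.mem_univ _, fun g => ?_⟩
        have h0 := hp.2
        have e : p.1 = fun s => ((Fin.elim0 : Fin 0 → Fin N → ι) s (g s)) :=
          funext fun s => s.elim0
        rw [e] at h0
        exact h0
      · intro p _
        ext1
        · exact Subsingleton.elim _ _
        · rfl
      · intro p _
        ext1
        · exact Subsingleton.elim _ _
        · rfl
    rw [e]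
    simpa using h
  | succ q ih =>
    intro Y _ β hβ R h
    -- first `q` coordinates
    obtain ⟨R1, hR1⟩ : ∃ R1 : (Fin q → ι) → ι × Y → Prop,
      R1 = fun v p => R (Fin.cons p.1 v) p.2 := ⟨_, rfl⟩
    have h1 : β * (Fintype.card ι : ℝ) ^ q * Fintype.card (ι × Y) ≤
        ((Finset.univ.filter fun p : (Fin q → ι) × (ι × Y) => R1 p.1 p.2).card : ℝ) := by
      have e : (Finset.univ.filter fun p : (Fin q → ι) × (ι × Y) => R1 p.1 p.2).card =
          (Finset.univ.filter fun p : (Fin (q + 1) → ι) × Y => R p.1 p.2).card := by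
        refine Finset.card_bij' (fun p _ => (Fin.cons p.2.1 p.1, p.2.2))
          (fun p _ => (Fin.tail p.1, (p.1 0, p.2))) ?_ ?_ ?_ ?_
        · intro p hp
          rw [Finset.mem_filter] at hp ⊢
          rw [hR1] at hp
          exact ⟨Finset.mem_univ _, hp.2⟩
        · intro p hp
          rw [Finset.mem_filter] at hp ⊢
          refine ⟨Finset.mem_univ _, ?_⟩
          simp only [hR1, Fin.cons_self_tail]
          exact hp.2
        · intro p _
          simp
        · intro p _
          simp
      rw [e]
      refine le_trans (le_of_eq ?_) h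
      rw [Fintype.card_prod]
      push_cast
      ring
    have h2 := ih (ι × Y) β hβ R1 h1
    -- the last coordinate
    obtain ⟨R2, hR2⟩ : ∃ R2 : ι → (Fin q → Fin N → ι) × Y → Prop, R2 = fun x p =>
      ∀ g : Fin q → Fin N, R1 (fun s => p.1 s (g s)) (x, p.2) := ⟨_, rfl⟩
    have h3 : β ^ (N ^ q) * Fintype.card ι * Fintype.card ((Fin q → Fin N → ι) × Y) ≤
        ((Finset.univ.filter fun p : ι × ((Fin q → Fin N → ι) × Y) => R2 p.1 p.2).card : ℝ) := by
      have e : (Finset.univ.filter fun p : ι × ((Fin q → Fin N → ι) × Y) => R2 p.1 p.2).card =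
          (Finset.univ.filter fun p : (Fin q → Fin N → ι) × (ι × Y) =>
            ∀ g : Fin q → Fin N, R1 (fun s => p.1 s (g s)) p.2).card := by
        refine Finset.card_bij' (fun p _ => (p.2.1, (p.1, p.2.2)))
          (fun p _ => (p.2.1, (p.1, p.2.2))) ?_ ?_ ?_ ?_
        · intro p hp
          rw [Finset.mem_filter] at hp ⊢
          rw [hR2] at hp
          exact ⟨Finset.mem_univ _, hp.2⟩
        · intro p hp
          rw [Finset.mem_filter] at hp ⊢
          rw [hR2]
          exact ⟨Finset.mem_univ _, hp.2⟩
        · intro p _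
          rfl
        · intro p _
          rfl
      rw [e]
      refine le_trans (le_of_eq ?_) h2
      simp only [Fintype.card_prod, Fintype.card_fun, Fintype.card_fin]
      push_cast
      rw [← pow_mul, mul_comm N q]
      ring
    have h4 := jensen_step R2 N (β ^ (N ^ q)) (by positivity) h3
    have e : (Finset.univ.filter fun p : (Fin N → ι) × ((Fin q → Fin N → ι) × Y) =>
        ∀ a, R2 (p.1 a) p.2).card =
        (Finset.univ.filter fun p : (Fin (q + 1) → Fin N → ι) × Y =>
          ∀ g : Fin (q + 1) → Fin N, R (fun s => p.1 s (g s)) p.2).card := by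
      refine Finset.card_bij' (fun p _ => (Fin.cons p.1 p.2.1, p.2.2))
        (fun p _ => (p.1 0, (Fin.tail p.1, p.2))) ?_ ?_ ?_ ?_
      · intro p hp
        rw [Finset.mem_filter] at hp ⊢
        refine ⟨Finset.mem_univ _, fun g => ?_⟩
        rw [hR2] at hp
        have := hp.2 (g 0) (Fin.tail g)
        rw [hR1] at this
        convert this using 1
        funext s
        refine Fin.cases ?_ (fun s => ?_) s
        · simp
        · simp [Fin.tail]
      · intro p hp
        rw [Finset.mem_filter] at hp ⊢
        rw [hR2]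
        refine ⟨Finset.mem_univ _, fun a g => ?_⟩
        have := hp.2 (Fin.cons a g)
        rw [hR1]
        convert this using 1
        funext s
        refine Fin.cases ?_ (fun s => ?_) s
        · simp
        · simp [Fin.tail]
      · intro p _
        simp
      · intro p _
        simp
    rw [e] at h4
    refine le_trans (le_of_eq ?_) h4
    simp only [Fintype.card_prod, Fintype.card_fun, Fintype.card_fin]
    push_cast
    rw [← pow_mul, ← pow_mul, pow_succ, mul_comm N q]
    ring

end Pool.Agent.MP_179466_co
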