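import Mathlib

open scoped BigOperators Classical

namespace Pool.Agent.MP_179466_co

/-- The determinant of `d, q - x, r - x`. -/
noncomputable def om (x d q r : EuclideanSpace ℝ (Fin 3)) : ℝ :=
  d 0 * ((q 1 - x 1) * (r 2 - x 2) - (q 2 - x 2) * (r 1 - x 1))
  - d 1 * ((q 0 - x 0) * (r 2 - x 2) - (q 2 - x 2) * (r 0 - x 0))
  + d 2 * ((q 0 - x 0) * (r 1 - x 1) - (q 1 - x 1) * (r 0 - x 0))

/-- The points `0, e_0, e_1, e_2`. -/
noncomputable def fr : Fin 4 → EuclideanSpace ℝ (Fin 3) :=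
  ![0, EuclideanSpace.single 0 1, EuclideanSpace.single 1 1, EuclideanSpace.single 2 1]

lemma om_swap (x d q r : EuclideanSpace ℝ (Fin 3)) : om x d q r = - om x d r q := by
  unfold om; ring

lemma om_fr0 (x d q : EuclideanSpace ℝ (Fin 3)) : om x d q (fr 0) =
  d 0 * ((q 1 - x 1) * (0 - x 2) - (q 2 - x 2) * (0 - x 1))
  - d 1 * ((q 0 - x 0) * (0 - x 2) - (q 2 - x 2) * (0 - x 0))
  + d 2 * ((q 0 - x 0) * (0 - x 1) - (q 1 - x 1) * (0 - x 0)) := by
  simp [om, fr]

lemma om_fr1 (x d q : EuclideanSpace ℝ (Fin 3)) : om x d q (fr 1) =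
  d 0 * ((q 1 - x 1) * (0 - x 2) - (q 2 - x 2) * (0 - x 1))
  - d 1 * ((q 0 - x 0) * (0 - x 2) - (q 2 - x 2) * (1 - x 0))
  + d 2 * ((q 0 - x 0) * (0 - x 1) - (q 1 - x 1) * (1 - x 0)) := by
  simp [om, fr]

lemma om_fr2 (x d q : EuclideanSpace ℝ (Fin 3)) : om x d q (fr 2) =
  d 0 * ((q 1 - x 1) * (0 - x 2) - (q 2 - x 2) * (1 - x 1))
  - d 1 * ((q 0 - x 0) * (0 - x 2) - (q 2 - x 2) * (0 - x 0))
  + d 2 * ((q 0 - x 0) * (1 - x 1) - (q 1 - x 1) * (0 - x 0)) := by
  simp [om, fr]

lemma om_fr3 (x d q : EuclideanSpace ℝ (Fin 3)) : om x d q (fr 3) =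
  d 0 * ((q 1 - x 1) * (1 - x 2) - (q 2 - x 2) * (0 - x 1))
  - d 1 * ((q 0 - x 0) * (1 - x 2) - (q 2 - x 2) * (0 - x 0))
  + d 2 * ((q 0 - x 0) * (0 - x 1) - (q 1 - x 1) * (0 - x 0)) := by
  simp [om, fr]

/-- a vector `y` with `d × y = 0` is a multiple of `d ≠ 0` -/
lemma par (d y : EuclideanSpace ℝ (Fin 3)) (hd : d ≠ 0) (h0 : d 1 * y 2 = d 2 * y 1)
    (h1 : d 0 * y 2 = d 2 * y 0) (h2 : d 0 * y 1 = d 1 * y 0) : ∃ t : ℝ, y = t • d := by
  have : ∃ i, d i ≠ 0 := by
    by_contra h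
    push Not at h
    exact hd (by ext i; simpa using h i)
  obtain ⟨i, hi⟩ := this
  refine ⟨y i / d i, ?_⟩
  ext j
  simp only [PiLp.smul_apply, smul_eq_mul]
  rw [div_mul_eq_mul_div, eq_div_iff hi]
  fin_cases i <;> fin_cases j <;> simp at h0 h1 h2 hi ⊢ <;> linarith

lemma cramer (d0 d1 d2 q0 q1 q2 r0 r1 r2 e0 e1 e2 A B : ℝ)
    (hA : A = d0 * (q1 * e2 - q2 * e1) - d1 * (q0 * e2 - q2 * e0) + d2 * (q0 * e1 - q1 * e0))
    (hB : B = d0 * (r1 * e2 - r2 * e1) - d1 * (r0 * e2 - r2 * e0) + d2 * (r0 * e1 - r1 * e0))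
    (h : d0 * (q1 * r2 - q2 * r1) - d1 * (q0 * r2 - q2 * r0) + d2 * (q0 * r1 - q1 * r0) = 0) :
    A * (-B * q0 + A * r0) = ((-B * q0 + A * r0) * (q1 * e2 - q2 * e1)
      - (-B * q1 + A * r1) * (q0 * e2 - q2 * e0) + (-B * q2 + A * r2) * (q0 * e1 - q1 * e0)) * d0 ∧
    A * (-B * q1 + A * r1) = ((-B * q0 + A * r0) * (q1 * e2 - q2 * e1)
      - (-B * q1 + A * r1) * (q0 * e2 - q2 * e0) + (-B * q2 + A * r2) * (q0 * e1 - q1 * e0)) * d1 ∧
    A * (-B * q2 + A * r2) = ((-B * q0 + A * r0) * (q1 * e2 - q2 * e1)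
      - (-B * q1 + A * r1) * (q0 * e2 - q2 * e0) + (-B * q2 + A * r2) * (q0 * e1 - q1 * e0)) *
      d2 := by
  subst hA hB
  refine ⟨?_, ?_, ?_⟩
  · linear_combination ((d0 * (q1 * e2 - q2 * e1) - d1 * (q0 * e2 - q2 * e0) +
      d2 * (q0 * e1 - q1 * e0)) * e0) * h
  · linear_combination ((d0 * (q1 * e2 - q2 * e1) - d1 * (q0 * e2 - q2 * e0) +
      d2 * (q0 * e1 - q1 * e0)) * e1) * h
  · linear_combination ((d0 * (q1 * e2 - q2 * e1) - d1 * (q0 * e2 - q2 * e0) +
      d2 * (q0 * e1 - q1 * e0)) * e2) * h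

/-- membership in the hull from a combination that is a multiple of `d` -/
lemma mem_of_comb {x d : EuclideanSpace ℝ (Fin 3)} {S : Set (EuclideanSpace ℝ (Fin 3))}
    {q r s : EuclideanSpace ℝ (Fin 3)} (hq : q ∈ S) (hr : r ∈ S) (hs : s ∈ S) {a b c t : ℝ}
    (ha : 0 ≤ a) (hb : 0 ≤ b) (hc : 0 ≤ c) (habc : 0 < a + b + c)
    (h : a • (q - x) + b • (r - x) + c • (s - x) = t • d) :
    ∃ s : ℝ, x + s • d ∈ convexHull ℝ S := by
  refine ⟨t / (a + b + c), ?_⟩
  have hne : a + b + c ≠ 0 := habc.ne'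
  have e : x + (t / (a + b + c)) • d =
      (a / (a + b + c)) • q + (b / (a + b + c)) • r + (c / (a + b + c)) • s := by
    have h2 : (t / (a + b + c)) • d = (1 / (a + b + c)) • (t • d) := by
      rw [smul_smul]; congr 1; ring
    rw [h2, ← h]
    ext i
    simp only [PiLp.add_apply, PiLp.smul_apply, PiLp.sub_apply, smul_eq_mul]
    field_simp
    ring
  rw [e]
  have hC := convex_convexHull ℝ S
  have := hC.sum_mem (t := (Finset.univ : Finset (Fin 3)))
    (w := ![a / (a + b + c), b / (a + b + c), c / (a + b + c)]) (z := ![q, r, s]) ?_ ?_ ?_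
  · simpa [Fin.sum_univ_three] using this
  · intro i _
    fin_cases i <;> simp <;> positivity
  · simp [Fin.sum_univ_three]
    field_simp
  · intro i _
    fin_cases i
    · exact subset_convexHull ℝ S hq
    · exact subset_convexHull ℝ S hr
    · exact subset_convexHull ℝ S hs

/-- The sign criterion. -/
def Crit {ι : Type*} (x d : EuclideanSpace ℝ (Fin 3)) (W : ι → EuclideanSpace ℝ (Fin 3)) : Prop :=
  (∃ a, ∀ e : Fin 4, om x d (W a) (fr e) = 0) ∨
  (∃ a b, om x d (W a) (W b) = 0 ∧ ∃ e, 0 < om x d (W a) (fr e) ∧ om x d (W b) (fr e) < 0) ∨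
  (∃ a b c, 0 < om x d (W a) (W b) ∧ 0 < om x d (W b) (W c) ∧ 0 < om x d (W c) (W a))

lemma hit_of_crit {ι : Type*} (x d : EuclideanSpace ℝ (Fin 3)) (hd : d ≠ 0)
    (W : ι → EuclideanSpace ℝ (Fin 3)) (h : Crit x d W) :
    ∃ s : ℝ, x + s • d ∈ convexHull ℝ (Set.range W) := by
  rcases h with ⟨a, h⟩ | ⟨a, b, hab, e, ha, hb⟩ | ⟨a, b, c, hab, hbc, hca⟩
  · have h0 := h 0
    have h1 := h 1
    have h2 := h 2
    have h3 := h 3
    rw [om_fr0] at h0
    rw [om_fr1] at h1
    rw [om_fr2] at h2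
    rw [om_fr3] at h3
    obtain ⟨t, ht⟩ := par d (W a - x) hd
      (by simp only [PiLp.sub_apply]; linear_combination h1 - h0)
      (by simp only [PiLp.sub_apply]; linear_combination h0 - h2)
      (by simp only [PiLp.sub_apply]; linear_combination h3 - h0)
    refine ⟨t, ?_⟩
    rw [← ht]
    have : x + (W a - x) = W a := by abel
    rw [this]
    exact subset_convexHull ℝ _ ⟨a, rfl⟩
  · set e' := fr e with he'
    set A := om x d (W a) e' with hA
    set B := om x d (W b) e' with hB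
    obtain ⟨c0, c1, c2⟩ := cramer (d 0) (d 1) (d 2) (W a 0 - x 0) (W a 1 - x 1) (W a 2 - x 2)
      (W b 0 - x 0) (W b 1 - x 1) (W b 2 - x 2) (e' 0 - x 0) (e' 1 - x 1) (e' 2 - x 2) A B hA hB hab
    -- the vector y = -B q' + A r' is a multiple of d
    have key : (-B) • (W a - x) + A • (W b - x) + (0:ℝ) • (W a - x) =
        (((-B * (W a 0 - x 0) + A * (W b 0 - x 0)) *
            ((W a 1 - x 1) * (e' 2 - x 2) - (W a 2 - x 2) * (e' 1 - x 1))
          - (-B * (W a 1 - x 1) + A * (W b 1 - x 1)) *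
            ((W a 0 - x 0) * (e' 2 - x 2) - (W a 2 - x 2) * (e' 0 - x 0))
          + (-B * (W a 2 - x 2) + A * (W b 2 - x 2)) *
            ((W a 0 - x 0) * (e' 1 - x 1) - (W a 1 - x 1) * (e' 0 - x 0))) / A) • d := by
      ext i
      simp only [PiLp.add_apply, PiLp.smul_apply, PiLp.sub_apply, smul_eq_mul, zero_mul, add_zero]
      rw [div_mul_eq_mul_div, eq_div_iff ha.ne']
      fin_cases i
      · simp only [Fin.zero_eta]; rw [mul_comm _ A]; exact c0
      · simp only [Fin.mk_one]; rw [mul_comm _ A]; exact c1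
      · simp only [Fin.reduceFinMk]; rw [mul_comm _ A]; exact c2
    exact mem_of_comb (q := W a) (r := W b) (s := W a) ⟨a, rfl⟩ ⟨b, rfl⟩ ⟨a, rfl⟩ (by linarith)
      ha.le le_rfl (by linarith) key
  · have key : om x d (W b) (W c) • (W a - x) + om x d (W c) (W a) • (W b - x) +
        om x d (W a) (W b) • (W c - x) =
        ((W a 0 - x 0) * ((W b 1 - x 1) * (W c 2 - x 2) - (W b 2 - x 2) * (W c 1 - x 1))
          - (W a 1 - x 1) * ((W b 0 - x 0) * (W c 2 - x 2) - (W b 2 - x 2) * (W c 0 - x 0))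
          + (W a 2 - x 2) * ((W b 0 - x 0) * (W c 1 - x 1) - (W b 1 - x 1) * (W c 0 - x 0))) •
          d := by
      ext i
      simp only [PiLp.add_apply, PiLp.smul_apply, PiLp.sub_apply, smul_eq_mul, om]
      fin_cases i <;> simp <;> ring
    exact mem_of_comb (q := W a) (r := W b) (s := W c) ⟨a, rfl⟩ ⟨b, rfl⟩ ⟨c, rfl⟩ hbc.le hca.le
      hab.le (by linarith) key

/-- the main case of the converse: a positive combination of three points -/
lemma crit_of_pos {ι : Type*} (x d : EuclideanSpace ℝ (Fin 3))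
    (W : ι → EuclideanSpace ℝ (Fin 3)) (i j k : ι) (a b c t : ℝ) (ha : 0 < a) (hb : 0 < b)
    (hc : 0 < c) (h : a • (W i - x) + b • (W j - x) + c • (W k - x) = t • d) :
    Crit x d W := by
  have h0 : a * (W i 0 - x 0) + b * (W j 0 - x 0) + c * (W k 0 - x 0) = t * d 0 := by
    have := congrArg (fun v => v 0) h
    simpa using this
  have h1 : a * (W i 1 - x 1) + b * (W j 1 - x 1) + c * (W k 1 - x 1) = t * d 1 := by
    have := congrArg (fun v => v 1) h
    simpa using this
  have h2 : a * (W i 2 - x 2) + b * (W j 2 - x 2) + c * (W k 2 - x 2) = t * d 2 := by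
    have := congrArg (fun v => v 2) h
    simpa using this
  have R : ∀ v : EuclideanSpace ℝ (Fin 3),
      a * om x d (W i) v + b * om x d (W j) v + c * om x d (W k) v = 0 := by
    intro v
    unfold om
    linear_combination (d 1 * (v 2 - x 2) * (-1) + d 2 * (v 1 - x 1)) * h0 +
      (d 0 * (v 2 - x 2) - d 2 * (v 0 - x 0)) * h1 +
      (- d 0 * (v 1 - x 1) + d 1 * (v 0 - x 0)) * h2
  have self : ∀ v : EuclideanSpace ℝ (Fin 3), om x d v v = 0 := by
    intro v; unfold om; ring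
  by_cases hi : ∀ e, om x d (W i) (fr e) = 0
  · exact Or.inl ⟨i, hi⟩
  push Not at hi
  obtain ⟨e, he⟩ := hi
  have Ri := R (W i)
  rw [self, om_swap x d (W j) (W i)] at Ri
  by_cases hij : om x d (W i) (W j) = 0
  · have hik : om x d (W i) (W k) = 0 := by
      rw [hij] at Ri
      rw [om_swap]
      have : c * om x d (W k) (W i) = 0 := by linarith
      rcases mul_eq_zero.mp this with h | h
      · exact absurd h hc.ne'
      · rw [h]; simp
    have Re := R (fr e)
    right; left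
    have hji : om x d (W j) (W i) = 0 := by rw [om_swap, hij]; simp
    have hki : om x d (W k) (W i) = 0 := by rw [om_swap, hik]; simp
    rcases lt_or_gt_of_ne he with h | h
    · -- negative at i
      by_cases hj : 0 < om x d (W j) (fr e)
      · exact ⟨j, i, hji, e, hj, h⟩
      · by_cases hk : 0 < om x d (W k) (fr e)
        · exact ⟨k, i, hki, e, hk, h⟩
        · exfalso
          push Not at hj hk
          nlinarith [mul_neg_of_pos_of_neg ha h, mul_nonpos_of_nonneg_of_nonpos hb.le hj,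
            mul_nonpos_of_nonneg_of_nonpos hc.le hk]
    · by_cases hj : om x d (W j) (fr e) < 0
      · exact ⟨i, j, hij, e, h, hj⟩
      · by_cases hk : om x d (W k) (fr e) < 0
        · exact ⟨i, k, hik, e, h, hk⟩
        · exfalso
          push Not at hj hk
          nlinarith [mul_pos ha h, mul_nonneg hb.le hj, mul_nonneg hc.le hk]
  · right; right
    have Rj := R (W j)
    rw [self] at Rj
    have e1 : c * om x d (W k) (W i) = b * om x d (W i) (W j) := by linarith
    have e2 : c * om x d (W j) (W k) = a * om x d (W i) (W j) := by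
      rw [om_swap x d (W j) (W k)]; linarith
    rcases lt_or_gt_of_ne hij with h | h
    · refine ⟨k, j, i, ?_, ?_, ?_⟩
      · rw [om_swap]
        have : c * om x d (W j) (W k) < 0 := by rw [e2]; exact mul_neg_of_pos_of_neg ha h
        have := neg_of_mul_neg_left (by linarith : om x d (W j) (W k) * c < 0) hc.le
        linarith
      · rw [om_swap]; linarith
      · rw [om_swap]
        have : c * om x d (W k) (W i) < 0 := by rw [e1]; exact mul_neg_of_pos_of_neg hb h
        have := neg_of_mul_neg_left (by linarith : om x d (W k) (W i) * c < 0) hc.le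
        linarith
    · refine ⟨i, j, k, h, ?_, ?_⟩
      · have : 0 < c * om x d (W j) (W k) := by rw [e2]; exact mul_pos ha h
        exact (mul_pos_iff_of_pos_left hc).mp this
      · have : 0 < c * om x d (W k) (W i) := by rw [e1]; exact mul_pos hb h
        exact (mul_pos_iff_of_pos_left hc).mp this

lemma crit_of_hit {ι : Type*} (x d : EuclideanSpace ℝ (Fin 3)) (hd : d ≠ 0)
    (W : ι → EuclideanSpace ℝ (Fin 3))
    (h : ∃ s : ℝ, x + s • d ∈ convexHull ℝ (Set.range W)) : Crit x d W := by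
  obtain ⟨s, hs⟩ := h
  set D := Submodule.span ℝ ({d} : Set (EuclideanSpace ℝ (Fin 3))) with hD
  have h1 : D.mkQ (x + s • d) ∈ D.mkQ '' convexHull ℝ (Set.range W) := ⟨_, hs, rfl⟩
  rw [LinearMap.image_convexHull] at h1
  obtain ⟨κ, hκ, z, w, hz, haff, hw, hw1, hsum⟩ := eq_pos_convex_span_of_mem_convexHull h1
  have hcard : Fintype.card κ ≤ 3 := by
    have h2 := haff.card_le_finrank_succ
    have h3 : Module.finrank ℝ (vectorSpan ℝ (Set.range z)) ≤
        Module.finrank ℝ (EuclideanSpace ℝ (Fin 3) ⧸ D) := Submodule.finrank_le _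
    have h4 := Submodule.finrank_quotient_add_finrank D
    rw [finrank_span_singleton hd, finrank_euclideanSpace_fin] at h4
    omega
  have hpre : ∀ k : κ, ∃ i : ι, D.mkQ (W i) = z k := by
    intro k
    obtain ⟨_, ⟨i, rfl⟩, h⟩ := hz ⟨k, rfl⟩
    exact ⟨i, h⟩
  choose f hf using hpre
  have hcomb : ∃ t : ℝ, ∑ k, w k • (W (f k) - x) = t • d := by
    have : ∑ k, w k • (W (f k) - x) ∈ D := by
      rw [← Submodule.Quotient.mk_eq_zero, ← Submodule.mkQ_apply, map_sum]
      have hxs : D.mkQ (x + s • d) = D.mkQ x := by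
        rw [map_add, map_smul]
        have : D.mkQ d = 0 := by
          rw [Submodule.mkQ_apply, Submodule.Quotient.mk_eq_zero]
          exact Submodule.mem_span_singleton_self d
        rw [this, smul_zero, add_zero]
      calc ∑ k, D.mkQ (w k • (W (f k) - x)) = ∑ k, (w k • z k - w k • D.mkQ x) := by
            refine Finset.sum_congr rfl fun k _ => ?_
            rw [map_smul, map_sub, hf, smul_sub]
        _ = 0 := by
            rw [Finset.sum_sub_distrib, hsum, ← Finset.sum_smul, hw1, one_smul, hxs, sub_self]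
    obtain ⟨t, ht⟩ := Submodule.mem_span_singleton.mp this
    exact ⟨t, ht.symm⟩
  obtain ⟨t, ht⟩ := hcomb
  have hpos : 0 < Fintype.card κ := by
    by_contra h
    have h : Fintype.card κ = 0 := by omega
    have := Fintype.card_eq_zero_iff.mp h
    simp at hw1
  have hc3 : Fintype.card κ = 1 ∨ Fintype.card κ = 2 ∨ Fintype.card κ = 3 := by omega
  have hre : ∀ (N : ℕ) (E : κ ≃ Fin N),
      ∑ m : Fin N, w (E.symm m) • (W (f (E.symm m)) - x) = t • d := by
    intro N E
    rw [← ht]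
    exact Equiv.sum_comp E.symm (fun k => w k • (W (f k) - x))
  rcases hc3 with h3 | h3 | h3
  · have hre := hre 1 (Fintype.equivFinOfCardEq h3)
    set E := Fintype.equivFinOfCardEq h3
    rw [Fin.sum_univ_one] at hre
    refine crit_of_pos x d W (f (E.symm 0)) (f (E.symm 0)) (f (E.symm 0)) (w (E.symm 0) / 3)
      (w (E.symm 0) / 3) (w (E.symm 0) / 3) t (div_pos (hw _) (by norm_num))
      (div_pos (hw _) (by norm_num)) (div_pos (hw _) (by norm_num)) ?_
    rw [← hre, ← add_smul, ← add_smul]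
    congr 1; ring
  · have hre := hre 2 (Fintype.equivFinOfCardEq h3)
    set E := Fintype.equivFinOfCardEq h3
    rw [Fin.sum_univ_two] at hre
    refine crit_of_pos x d W (f (E.symm 0)) (f (E.symm 1)) (f (E.symm 1)) (w (E.symm 0))
      (w (E.symm 1) / 2) (w (E.symm 1) / 2) t (hw _)
      (div_pos (hw _) (by norm_num)) (div_pos (hw _) (by norm_num)) ?_
    rw [← hre, add_assoc, ← add_smul]
    congr 2; ring
  · have hre := hre 3 (Fintype.equivFinOfCardEq h3)
    set E := Fintype.equivFinOfCardEq h3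
    rw [Fin.sum_univ_three] at hre
    exact crit_of_pos x d W (f (E.symm 0)) (f (E.symm 1)) (f (E.symm 2)) (w (E.symm 0))
      (w (E.symm 1)) (w (E.symm 2)) t (hw _) (hw _) (hw _) hre

lemma hit_iff {ι : Type*} (x d : EuclideanSpace ℝ (Fin 3)) (hd : d ≠ 0)
    (W : ι → EuclideanSpace ℝ (Fin 3)) :
    (∃ s : ℝ, x + s • d ∈ convexHull ℝ (Set.range W)) ↔ Crit x d W :=
  ⟨crit_of_hit x d hd W, hit_of_crit x d hd W⟩

end Pool.Agent.MP_179466_co
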