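import Pool.Agent.MP_179466_co.Local
import Pool.Agent.MP_179466_co.Blowup

open scoped BigOperators Classical

namespace Pool.Agent.MP_179466_co

/-- the involution that exchanges `x` with the value at `k` -/
def exch {J X : Type} [DecidableEq J] (k : J) : ((J → X) × X) ≃ ((J → X) × X) where
  toFun p := (Function.update p.1 k p.2, p.1 k)
  invFun p := (Function.update p.1 k p.2, p.1 k)
  left_inv p := by
    ext1 <;> simp
  right_inv p := by
    ext1 <;> simp

lemma update_count {J X : Type} [Fintype J] [DecidableEq J] [Fintype X] (k : J)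
    (A : Finset (J → X)) :
    ∑ y : J → X, (Finset.univ.filter fun x => Function.update y k x ∈ A).card =
      A.card * Fintype.card X := by
  have h1 : ∑ p : (J → X) × X, (if p.1 ∈ A then 1 else 0 : ℕ) = A.card * Fintype.card X := by
    rw [← Finset.card_filter]
    have e : (Finset.univ.filter fun p : (J → X) × X => p.1 ∈ A) = A ×ˢ Finset.univ := by
      ext p
      simp
    rw [e, Finset.card_product, Finset.card_univ]
  rw [← h1, ← Equiv.sum_comp (exch k), Fintype.sum_prod_type]
  refine Finset.sum_congr rfl fun y _ => ?_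
  rw [Finset.card_filter]
  rfl

/-- a chosen line through the triangles, if there is one -/
noncomputable def pick (pts : Fin 30 → Fin 3 → EuclideanSpace ℝ (Fin 3)) :
    EuclideanSpace ℝ (Fin 3) × EuclideanSpace ℝ (Fin 3) :=
  if h : ∃ l : EuclideanSpace ℝ (Fin 3) × EuclideanSpace ℝ (Fin 3),
    l.2 ≠ 0 ∧ ∀ j, Meets l.1 l.2 (pts j) then h.choose else (0, 0)

lemma pick_spec (pts : Fin 30 → Fin 3 → EuclideanSpace ℝ (Fin 3))
    (h : ∃ l : EuclideanSpace ℝ (Fin 3) × EuclideanSpace ℝ (Fin 3),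
      l.2 ≠ 0 ∧ ∀ j, Meets l.1 l.2 (pts j)) :
    (pick pts).2 ≠ 0 ∧ ∀ j, Meets (pick pts).1 (pick pts).2 (pts j) := by
  unfold pick
  rw [dif_pos h]
  exact h.choose_spec

/-- The complete `q`-partite theorem implies its positive density form. -/
theorem frac_core (q : ℕ)
    (hcomp : ∃ c₀ : ℝ, 0 < c₀ ∧ ∀ (N : ℕ), 1 ≤ N →
      ∀ A : Fin q → Fin N → Set (EuclideanSpace ℝ (Fin 3)), (∀ s i, Convex ℝ (A s i)) →
      (∀ s t, s ≠ t → ∀ i j, (A s i ∩ A t j).Nonempty) →
      ∃ (s : Fin q) (x d : EuclideanSpace ℝ (Fin 3)), d ≠ 0 ∧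
        c₀ * (N : ℝ) ≤ (Nat.card {i : Fin N // ∃ t : ℝ, x + t • d ∈ A s i} : ℝ))
    (α : ℝ) (hα : 0 < α) :
    ∃ c : ℝ, 0 < c ∧ ∀ (ι : Type) [Fintype ι] [Nonempty ι]
      (A : Fin q → ι → Set (EuclideanSpace ℝ (Fin 3))), (∀ s i, Convex ℝ (A s i)) →
      (α * (Fintype.card ι : ℝ) ^ q ≤
        ((Finset.univ.filter fun x : Fin q → ι =>
          ∀ s t, s ≠ t → (A s (x s) ∩ A t (x t)).Nonempty).card : ℝ)) →
      ∃ (s : Fin q) (x d : EuclideanSpace ℝ (Fin 3)), d ≠ 0 ∧
        c * (Fintype.card ι : ℝ) ≤ (Nat.card {i : ι // ∃ t : ℝ, x + t • d ∈ A s i} : ℝ) := by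
  obtain ⟨c₀, hc₀, hc⟩ := hcomp
  obtain ⟨N, hN1, hN⟩ : ∃ N : ℕ, 1 ≤ N ∧ (10000 : ℝ) ≤ c₀ * N := by
    refine ⟨⌈10000 / c₀⌉₊ + 1, by omega, ?_⟩
    have h1 := Nat.le_ceil (10000 / c₀)
    have h2 : 10000 / c₀ ≤ ((⌈10000 / c₀⌉₊ + 1 : ℕ) : ℝ) := by push_cast; linarith
    calc (10000 : ℝ) = c₀ * (10000 / c₀) := by field_simp
      _ ≤ _ := mul_le_mul_of_nonneg_left h2 hc₀.le
  rcases Nat.eq_zero_or_pos q with hq0 | hq
  · exfalso
    subst hq0
    obtain ⟨s, -⟩ := hc 1 le_rfl (fun s => s.elim0) (fun s => s.elim0) (fun s => s.elim0)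
    exact s.elim0
  let T := Fin q × (Fin 30 → Fin N) × (Fin 30 → Fin 3 → Fin q × Fin N) × Fin N
  have hT : Nonempty T := ⟨(⟨0, hq⟩, fun _ => ⟨0, hN1⟩, fun _ _ => (⟨0, hq⟩, ⟨0, hN1⟩), ⟨0, hN1⟩)⟩
  have hTpos : (0:ℝ) < Fintype.card T := by exact_mod_cast Fintype.card_pos
  refine ⟨α ^ (N ^ q) / Fintype.card T, by positivity, ?_⟩
  intro ι _ _ A hconv hdens
  have hιpos : (0:ℝ) < Fintype.card ι := by exact_mod_cast Fintype.card_pos
  -- contact points
  have hpt : ∀ (s t : Fin q) (i j : ι), ∃ y : EuclideanSpace ℝ (Fin 3),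
      (A s i ∩ A t j).Nonempty → y ∈ A s i ∩ A t j := by
    intro s t i j
    by_cases h : (A s i ∩ A t j).Nonempty
    · obtain ⟨y, hy⟩ := h
      exact ⟨y, fun _ => hy⟩
    · exact ⟨0, fun h' => absurd h' h⟩
  choose p hp using hpt
  let P : Fin q → Fin q → ι → ι → EuclideanSpace ℝ (Fin 3) := fun s t i j =>
    if s < t then p s t i j else p t s j i
  have hPsymm : ∀ s t i j, s ≠ t → P s t i j = P t s j i := by
    intro s t i j hst
    simp only [P]
    rcases lt_or_gt_of_ne hst with h | h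
    · rw [if_pos h, if_neg (not_lt_of_gt h)]
    · rw [if_pos h, if_neg (not_lt_of_gt h)]
  have hPmem : ∀ s t i j, (A s i ∩ A t j).Nonempty → P s t i j ∈ A s i := by
    intro s t i j h
    simp only [P]
    split_ifs with hst
    · exact (hp s t i j h).1
    · exact (hp t s j i (by rwa [Set.inter_comm])).2
  -- the good maps
  set 𝒢 : Finset (Fin q → Fin N → ι) := Finset.univ.filter fun f =>
    ∀ g : Fin q → Fin N, ∀ s t, s ≠ t → (A s (f s (g s)) ∩ A t (f t (g t))).Nonempty with h𝒢
  have hGcard : α ^ (N ^ q) * (Fintype.card ι : ℝ) ^ (q * N) ≤ (𝒢.card : ℝ) := by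
    obtain ⟨Q, hQ⟩ : ∃ Q : (Fin q → ι) → Unit → Prop, Q = fun x _ =>
      ∀ s t, s ≠ t → (A s (x s) ∩ A t (x t)).Nonempty := ⟨_, rfl⟩
    have e0 : (Finset.univ.filter fun p : (Fin q → ι) × Unit => Q p.1 p.2).card =
        (Finset.univ.filter fun x : Fin q → ι =>
          ∀ s t, s ≠ t → (A s (x s) ∩ A t (x t)).Nonempty).card := by
      refine Finset.card_bij' (fun p _ => p.1) (fun x _ => (x, ())) ?_ ?_ ?_ ?_
      · intro p hp
        rw [Finset.mem_filter] at hp ⊢
        rw [hQ] at hp
        exact ⟨Finset.mem_univ _, hp.2⟩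
      · intro p hp
        rw [Finset.mem_filter] at hp ⊢
        rw [hQ]
        exact ⟨Finset.mem_univ _, hp.2⟩
      · intro p _
        rfl
      · intro p _
        rfl
    have h1 := blowup N ι q Unit α hα.le Q (by
        rw [e0]
        simpa using hdens)
    have e : (Finset.univ.filter fun p : (Fin q → Fin N → ι) × Unit =>
        ∀ g : Fin q → Fin N, Q (fun s => p.1 s (g s)) p.2).card = 𝒢.card := by
      refine Finset.card_bij' (fun p _ => p.1) (fun x _ => (x, ())) ?_ ?_ ?_ ?_
      · intro p hp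
        rw [Finset.mem_filter, hQ] at hp
        rw [h𝒢, Finset.mem_filter]
        exact ⟨Finset.mem_univ _, hp.2⟩
      · intro p hp
        rw [h𝒢, Finset.mem_filter] at hp
        rw [Finset.mem_filter, hQ]
        exact ⟨Finset.mem_univ _, hp.2⟩
      · intro p _
        rfl
      · intro p _
        rfl
    rw [e] at h1
    simpa using h1
  let pts : (Fin q → Fin N → ι) → T → Fin 30 → Fin 3 → EuclideanSpace ℝ (Fin 3) :=
    fun f τ j k => P τ.1 (τ.2.2.1 j k).1 (f τ.1 (τ.2.1 j)) (f (τ.2.2.1 j k).1 (τ.2.2.1 j k).2)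
  let Φ : (Fin q → Fin N → ι) → T → Prop := fun f τ =>
    (∀ j, τ.2.1 j ≠ τ.2.2.2) ∧ (∀ j k, τ.2.2.1 j k ≠ (τ.1, τ.2.2.2)) ∧
    (pick (pts f τ)).2 ≠ 0 ∧
    ∃ u : ℝ, (pick (pts f τ)).1 + u • (pick (pts f τ)).2 ∈ A τ.1 (f τ.1 τ.2.2.2)
  have claim1 : ∀ f ∈ 𝒢, ∃ τ, Φ f τ := by
    intro f hf
    rw [h𝒢, Finset.mem_filter] at hf
    have hf2 : ∀ s t, s ≠ t → ∀ a b, (A s (f s a) ∩ A t (f t b)).Nonempty := by
      intro s t hst a b
      have := hf.2 (Function.update (fun _ => b) s a) s t hst
      rwa [Function.update_self, Function.update_of_ne hst.symm] at this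
    let V : (s : Fin q) → Fin N → {p : Fin q × Fin N // p.1 ≠ s} → EuclideanSpace ℝ (Fin 3) :=
      fun s a p => P s p.1.1 (f s a) (f p.1.1 p.1.2)
    have hVmem : ∀ s a p, V s a p ∈ A s (f s a) := fun s a p =>
      hPmem _ _ _ _ (hf2 s p.1.1 p.2.symm a p.1.2)
    obtain ⟨s, x, d, hd, hcard⟩ := hc N hN1 (fun s a => convexHull ℝ (Set.range (V s a)))
      (fun s a => convex_convexHull ℝ _) (by
        intro s t hst a b
        refine ⟨P s t (f s a) (f t b), ?_, ?_⟩
        · exact subset_convexHull ℝ _ ⟨⟨(t, b), hst.symm⟩, rfl⟩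
        · rw [hPsymm s t _ _ hst]
          exact subset_convexHull ℝ _ ⟨⟨(s, a), hst⟩, rfl⟩)
    set H := Finset.univ.filter fun a : Fin N =>
      ∃ t : ℝ, x + t • d ∈ convexHull ℝ (Set.range (V s a)) with hH
    have hHcard : 10000 ≤ H.card := by
      rw [Nat.card_eq_fintype_card, Fintype.card_subtype] at hcard
      have h1 : (10000 : ℝ) ≤ (H.card : ℝ) := hN.trans hcard
      exact_mod_cast h1
    obtain ⟨H', hH'sub, hH'card⟩ := Finset.exists_subset_card_eq hHcard
    let φ : Fin 10000 ↪o Fin N := H'.orderEmbOfFin hH'card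
    have hφ : ∀ k, ∃ t : ℝ, x + t • d ∈ convexHull ℝ (Set.range (V s (φ k))) := by
      intro k
      have h1 : φ k ∈ H := hH'sub (H'.orderEmbOfFin_mem hH'card k)
      rw [hH, Finset.mem_filter] at h1
      exact h1.2
    have h3 := fun k => three x d hd (V s (φ k)) (hφ k)
    choose i hi using h3
    let W : Fin 10000 → Fin 3 → EuclideanSpace ℝ (Fin 3) := fun k j => V s (φ k) (i k j)
    obtain ⟨z, hz⟩ := local_lemma (K := 10000) 30 120 (by norm_num) W
    let τ0 : Fin 30 → Fin N := fun j => φ (z j)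
    let β0 : Fin 30 → Fin 3 → Fin q × Fin N := fun j k => (i (z j) k).1
    -- the chosen line
    have hpick := pick_spec (fun j => W (z j)) ⟨(x, d), hd, fun j => hi (z j)⟩
    have hmany := hz _ _ hpick.1 hpick.2
    set l := pick (fun j => W (z j)) with hl
    set F : Finset (Fin q × Fin N) := (Finset.univ.image fun j => (s, τ0 j)) ∪
      (Finset.univ.image fun jk : Fin 30 × Fin 3 => β0 jk.1 jk.2) with hF
    have hFcard : F.card ≤ 120 := by
      refine (Finset.card_union_le _ _).trans ?_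
      have h1 : (Finset.univ.image fun j => (s, τ0 j)).card ≤ 30 :=
        Finset.card_image_le.trans (by simp)
      have h2 : (Finset.univ.image fun jk : Fin 30 × Fin 3 => β0 jk.1 jk.2).card ≤ 90 :=
        Finset.card_image_le.trans (by simp)
      omega
    set M := (Finset.univ.filter fun k => Meets l.1 l.2 (W k)).image fun k => (s, φ k) with hM
    have hMcard : 120 < M.card := by
      rw [hM, Finset.card_image_of_injective]
      · exact hmany
      · intro a b hab
        exact φ.injective (Prod.ext_iff.mp hab).2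
    obtain ⟨e, heM, heF⟩ := Finset.exists_mem_notMem_of_card_lt_card (hFcard.trans_lt hMcard)
    rw [hM, Finset.mem_image] at heM
    obtain ⟨k, hk, rfl⟩ := heM
    rw [Finset.mem_filter] at hk
    refine ⟨(s, τ0, β0, φ k), ?_, ?_, ?_, ?_⟩
    · intro j hj
      apply heF
      rw [hF, Finset.mem_union]
      left
      rw [Finset.mem_image]
      exact ⟨j, Finset.mem_univ _, by rw [show τ0 j = φ k from hj]⟩
    · intro j k' hj
      apply heF
      rw [hF, Finset.mem_union]
      right
      rw [Finset.mem_image]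
      exact ⟨(j, k'), Finset.mem_univ _, hj⟩
    · exact hpick.1
    · obtain ⟨u, hu⟩ := hk.2
      refine ⟨u, ?_⟩
      refine convexHull_min ?_ (hconv s _) hu
      rintro _ ⟨j, rfl⟩
      exact hVmem s (φ k) (i k j)
  -- pigeonhole over the types
  obtain ⟨τ, hτ⟩ : ∃ τ : T, 𝒢.card ≤ Fintype.card T * (Finset.univ.filter fun f => Φ f τ).card := by
    by_contra hcon
    push Not at hcon
    have h1 : 𝒢.card ≤ ∑ τ : T, (Finset.univ.filter fun f => Φ f τ).card := by
      calc 𝒢.card ≤ ((Finset.univ : Finset T).biUnion fun τ =>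
            Finset.univ.filter fun f => Φ f τ).card := by
            refine Finset.card_le_card ?_
            intro f hf
            obtain ⟨τ, hτ⟩ := claim1 f hf
            rw [Finset.mem_biUnion]
            exact ⟨τ, Finset.mem_univ _, Finset.mem_filter.mpr ⟨Finset.mem_univ _, hτ⟩⟩
        _ ≤ _ := Finset.card_biUnion_le
    have h2 : ∑ τ : T, Fintype.card T * (Finset.univ.filter fun f => Φ f τ).card <
        ∑ _τ : T, 𝒢.card :=
      Finset.sum_lt_sum_of_nonempty Finset.univ_nonempty fun τ _ => hcon τ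
    rw [← Finset.mul_sum, Finset.sum_const, Finset.card_univ, smul_eq_mul] at h2
    have h3 := Nat.lt_of_mul_lt_mul_left h2
    omega
  -- the product form
  obtain ⟨S, hS⟩ : ∃ S : Finset (Fin q × Fin N → ι), S = Finset.univ.filter fun h =>
    Φ (Function.curry h) τ := ⟨_, rfl⟩
  have hScard : S.card = (Finset.univ.filter fun f => Φ f τ).card := by
    rw [hS]
    refine Finset.card_bij' (fun h _ => Function.curry h) (fun f _ => Function.uncurry f)
      ?_ ?_ ?_ ?_
    · intro h hh
      rw [Finset.mem_filter] at hh ⊢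
      exact ⟨Finset.mem_univ _, hh.2⟩
    · intro f hf
      rw [Finset.mem_filter] at hf ⊢
      exact ⟨Finset.mem_univ _, by rw [Function.curry_uncurry]; exact hf.2⟩
    · intro h _
      exact Function.uncurry_curry h
    · intro f _
      exact Function.curry_uncurry f
  set k₀ : Fin q × Fin N := (τ.1, τ.2.2.2) with hk₀
  have hcount := update_count k₀ S
  set R : ℝ := α ^ (N ^ q) / Fintype.card T * (Fintype.card ι : ℝ) with hR
  have hRpos : 0 < R := by positivity
  obtain ⟨y, hy⟩ : ∃ y : Fin q × Fin N → ι,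
      R ≤ ((Finset.univ.filter fun x => Function.update y k₀ x ∈ S).card : ℝ) := by
    by_contra hcon
    push Not at hcon
    have h1 : ∑ y : Fin q × Fin N → ι,
        ((Finset.univ.filter fun x => Function.update y k₀ x ∈ S).card : ℝ) <
        ∑ _y : Fin q × Fin N → ι, R :=
      Finset.sum_lt_sum_of_nonempty Finset.univ_nonempty fun y _ => hcon y
    have h2 : ∑ y : Fin q × Fin N → ι,
        ((Finset.univ.filter fun x => Function.update y k₀ x ∈ S).card : ℝ) =
        (S.card : ℝ) * Fintype.card ι := by exact_mod_cast hcount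
    have h3 : ∑ _y : Fin q × Fin N → ι, R = (Fintype.card ι : ℝ) ^ (q * N) * R := by
      rw [Finset.sum_const, Finset.card_univ, nsmul_eq_mul]
      simp
    rw [h2, h3, hR] at h1
    have h4 : α ^ (N ^ q) * (Fintype.card ι : ℝ) ^ (q * N) ≤ Fintype.card T * (S.card : ℝ) := by
      refine hGcard.trans ?_
      rw [hScard]
      exact_mod_cast hτ
    have h5 : (S.card : ℝ) < (Fintype.card ι : ℝ) ^ (q * N) * (α ^ (N ^ q) / Fintype.card T) := by
      have h6 : (S.card : ℝ) * Fintype.card ι <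
          ((Fintype.card ι : ℝ) ^ (q * N) * (α ^ (N ^ q) / Fintype.card T)) * Fintype.card ι := by
        calc _ < _ := h1
          _ = _ := by ring
      exact lt_of_mul_lt_mul_right h6 hιpos.le
    have h7 : (Fintype.card T : ℝ) * (S.card : ℝ) <
        α ^ (N ^ q) * (Fintype.card ι : ℝ) ^ (q * N) := by
      calc (Fintype.card T : ℝ) * (S.card : ℝ) <
          Fintype.card T * ((Fintype.card ι : ℝ) ^ (q * N) * (α ^ (N ^ q) / Fintype.card T)) :=
            mul_lt_mul_of_pos_left h5 hTpos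
        _ = _ := by field_simp
    linarith
  set X := Finset.univ.filter fun x => Function.update y k₀ x ∈ S with hX
  have hXall : ∀ x ∈ X, Φ (Function.curry (Function.update y k₀ x)) τ := by
    intro x hx
    rw [hX, Finset.mem_filter, hS, Finset.mem_filter] at hx
    exact hx.2.2
  have hXpos : 0 < X.card := by
    have : (0:ℝ) < (X.card : ℝ) := hRpos.trans_le hy
    exact_mod_cast this
  obtain ⟨x0, hx0⟩ := Finset.card_pos.mp hXpos
  have hforeign := hXall x0 hx0
  -- the points do not depend on the coordinate `k₀`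
  have hptsy : ∀ x, pts (Function.curry (Function.update y k₀ x)) τ =
      pts (Function.curry y) τ := by
    intro x
    funext j k
    have e1 : Function.curry (Function.update y k₀ x) τ.1 (τ.2.1 j) =
        Function.curry y τ.1 (τ.2.1 j) := by
      simp only [Function.curry]
      rw [Function.update_of_ne]
      intro h
      exact hforeign.1 j (Prod.ext_iff.mp h).2
    have e2 : Function.curry (Function.update y k₀ x) (τ.2.2.1 j k).1 (τ.2.2.1 j k).2 =
        Function.curry y (τ.2.2.1 j k).1 (τ.2.2.1 j k).2 := by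
      simp only [Function.curry]
      rw [Function.update_of_ne]
      exact hforeign.2.1 j k
    simp only [pts]
    rw [e1, e2]
  refine ⟨τ.1, (pick (pts (Function.curry y) τ)).1, (pick (pts (Function.curry y) τ)).2, ?_, ?_⟩
  · have := hforeign.2.2.1
    rwa [hptsy] at this
  · refine hy.trans ?_
    rw [Nat.card_eq_fintype_card, Fintype.card_subtype]
    refine Nat.cast_le.mpr (Finset.card_le_card ?_)
    intro x hx
    rw [Finset.mem_filter]
    refine ⟨Finset.mem_univ _, ?_⟩
    obtain ⟨u, hu⟩ := (hXall x hx).2.2.2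
    rw [hptsy] at hu
    refine ⟨u, ?_⟩
    have e : Function.curry (Function.update y k₀ x) τ.1 τ.2.2.2 = x := by
      simp only [Function.curry]
      exact Function.update_self _ _ _
    rwa [e] at hu

end Pool.Agent.MP_179466_co
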