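import Pool.Agent.MP_179466_co.Frac

open scoped BigOperators Classical

namespace Pool.Agent.MP_179466_co

/-- counting with one coordinate -/
lemma coord_count {q : ℕ} (m : Fin q → ℕ) (s : Fin q) (P : Fin (m s) → Prop) :
    (Finset.univ.filter fun x : (t : Fin q) → Fin (m t) => P (x s)).card * m s =
      (Finset.univ.filter fun i => P i).card * Fintype.card ((t : Fin q) → Fin (m t)) := by
  let e := Equiv.piSplitAt s (fun t => Fin (m t))
  have h1 : Fintype.card ((t : Fin q) → Fin (m t)) =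
      m s * Fintype.card ((j : {j : Fin q // j ≠ s}) → Fin (m j)) := by
    rw [Fintype.card_congr e, Fintype.card_prod, Fintype.card_fin]
  have h2 : (Finset.univ.filter fun x : (t : Fin q) → Fin (m t) => P (x s)).card =
      (Finset.univ.filter fun i => P i).card *
        Fintype.card ((j : {j : Fin q // j ≠ s}) → Fin (m j)) := by
    rw [← Finset.card_univ (α := (j : {j : Fin q // j ≠ s}) → Fin (m j)), ← Finset.card_product]
    refine Finset.card_bij' (fun x _ => e x) (fun p _ => e.symm p) ?_ ?_ ?_ ?_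
    · intro x hx
      rw [Finset.mem_filter] at hx
      rw [Finset.mem_product, Finset.mem_filter]
      exact ⟨⟨Finset.mem_univ _, hx.2⟩, Finset.mem_univ _⟩
    · intro p hp
      rw [Finset.mem_product, Finset.mem_filter] at hp
      rw [Finset.mem_filter]
      refine ⟨Finset.mem_univ _, ?_⟩
      have : (e.symm p) s = p.1 := by
        have h3 : e (e.symm p) = p := e.apply_symm_apply p
        exact congrArg Prod.fst h3
      rw [this]
      exact hp.1.2
    · intro x _
      exact e.symm_apply_apply x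
    · intro p _
      exact e.apply_symm_apply p
  rw [h1, h2]
  ring

/-- the shift: the diagonal becomes the first row -/
def shiftE (k : ℕ) (B : Fin (k + 1) → Type) :
    (Fin (k + 1) → (t : Fin (k + 1)) → B t) ≃ (Fin (k + 1) → (t : Fin (k + 1)) → B t) where
  toFun X := fun s t => X (s + t) t
  invFun Y := fun s t => Y (s - t) t
  left_inv X := by
    funext s t
    simp
  right_inv Y := by
    funext s t
    simp

lemma diag_count (k : ℕ) (B : Fin (k + 1) → Type) [∀ t, Fintype (B t)]
    (Q : ((t : Fin (k + 1)) → B t) → Prop) :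
    (Finset.univ.filter fun X : Fin (k + 1) → ((t : Fin (k + 1)) → B t) =>
      Q (fun s => X s s)).card =
    (Finset.univ.filter fun y => Q y).card * Fintype.card ((t : Fin (k + 1)) → B t) ^ k := by
  have h1 : (Finset.univ.filter fun X : Fin (k + 1) → ((t : Fin (k + 1)) → B t) =>
      Q (fun s => X s s)).card =
      (Finset.univ.filter fun Y : Fin (k + 1) → ((t : Fin (k + 1)) → B t) => Q (Y 0)).card := by
    refine Finset.card_bij' (fun X _ => shiftE k B X) (fun Y _ => (shiftE k B).symm Y) ?_ ?_ ?_ ?_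
    · intro X hX
      rw [Finset.mem_filter] at hX ⊢
      refine ⟨Finset.mem_univ _, ?_⟩
      have : (shiftE k B X) 0 = fun s => X s s := by
        funext t
        simp [shiftE]
      rw [this]
      exact hX.2
    · intro Y hY
      rw [Finset.mem_filter] at hY ⊢
      refine ⟨Finset.mem_univ _, ?_⟩
      have : (fun s => (shiftE k B).symm Y s s) = Y 0 := by
        funext t
        simp [shiftE]
      rw [this]
      exact hY.2
    · intro X _
      exact (shiftE k B).symm_apply_apply X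
    · intro Y _
      exact (shiftE k B).apply_symm_apply Y
  have h2 : (Finset.univ.filter fun Y : Fin (k + 1) → ((t : Fin (k + 1)) → B t) => Q (Y 0)).card =
      ((Finset.univ.filter fun y => Q y) ×ˢ
        (Finset.univ : Finset (Fin k → ((t : Fin (k + 1)) → B t)))).card := by
    refine Finset.card_bij' (fun Y _ => (Y 0, Fin.tail Y)) (fun p _ => Fin.cons p.1 p.2) ?_ ?_ ?_ ?_
    · intro Y hY
      rw [Finset.mem_filter] at hY
      rw [Finset.mem_product, Finset.mem_filter]
      exact ⟨⟨Finset.mem_univ _, hY.2⟩, Finset.mem_univ _⟩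
    · intro p hp
      rw [Finset.mem_product, Finset.mem_filter] at hp
      rw [Finset.mem_filter]
      exact ⟨Finset.mem_univ _, hp.1.2⟩
    · intro Y _
      exact Fin.cons_self_tail Y
    · intro p _
      rfl
  rw [h1, h2, Finset.card_product, Finset.card_univ]
  simp

/-- The complete `q`-partite theorem implies its positive density form, families of any sizes. -/
theorem frac_sizes (q : ℕ)
    (hcomp : ∃ c₀ : ℝ, 0 < c₀ ∧ ∀ (N : ℕ), 1 ≤ N →
      ∀ A : Fin q → Fin N → Set (EuclideanSpace ℝ (Fin 3)), (∀ s i, Convex ℝ (A s i)) →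
      (∀ s t, s ≠ t → ∀ i j, (A s i ∩ A t j).Nonempty) →
      ∃ (s : Fin q) (x d : EuclideanSpace ℝ (Fin 3)), d ≠ 0 ∧
        c₀ * (N : ℝ) ≤ (Nat.card {i : Fin N // ∃ t : ℝ, x + t • d ∈ A s i} : ℝ))
    (α : ℝ) (hα : 0 < α) :
    ∃ c : ℝ, 0 < c ∧ ∀ (m : Fin q → ℕ), (∀ s, 1 ≤ m s) →
      ∀ A : (s : Fin q) → Fin (m s) → Set (EuclideanSpace ℝ (Fin 3)), (∀ s i, Convex ℝ (A s i)) →
      α * ∏ s, (m s : ℝ) ≤
        (Nat.card {x : (s : Fin q) → Fin (m s) //
          ∀ s t, s ≠ t → (A s (x s) ∩ A t (x t)).Nonempty} : ℝ) →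
      ∃ (s : Fin q) (x d : EuclideanSpace ℝ (Fin 3)), d ≠ 0 ∧
        c * (m s : ℝ) ≤ (Nat.card {i : Fin (m s) // ∃ t : ℝ, x + t • d ∈ A s i} : ℝ) := by
  obtain ⟨c, hc, hmain⟩ := frac_core q hcomp α hα
  rcases q with _ | k
  · exfalso
    obtain ⟨c₀, hc₀, hc⟩ := hcomp
    obtain ⟨s, -⟩ := hc 1 le_rfl (fun s => s.elim0) (fun s => s.elim0) (fun s => s.elim0)
    exact s.elim0
  refine ⟨c, hc, ?_⟩
  intro m hm A hconv hdens
  have hne : ∀ s, Nonempty (Fin (m s)) := fun s => ⟨⟨0, hm s⟩⟩
  have hcardι : (Fintype.card ((s : Fin (k + 1)) → Fin (m s)) : ℝ) = ∏ s, (m s : ℝ) := by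
    rw [Fintype.card_pi]
    push_cast
    simp
  have hιpos : (0:ℝ) < Fintype.card ((s : Fin (k + 1)) → Fin (m s)) := by
    exact_mod_cast Fintype.card_pos
  obtain ⟨s, x, d, hd, hle⟩ := hmain ((s : Fin (k + 1)) → Fin (m s)) (fun s x => A s (x s))
    (fun s x => hconv s _) (by
      have h1 := diag_count k (fun t => Fin (m t))
        (fun y => ∀ s t, s ≠ t → (A s (y s) ∩ A t (y t)).Nonempty)
      have h2 : ((Finset.univ.filter fun X : Fin (k + 1) → ((t : Fin (k + 1)) → Fin (m t)) =>
          ∀ s t, s ≠ t → (A s (X s s) ∩ A t (X t t)).Nonempty).card : ℝ) =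
          ((Finset.univ.filter fun y : (t : Fin (k + 1)) → Fin (m t) =>
            ∀ s t, s ≠ t → (A s (y s) ∩ A t (y t)).Nonempty).card : ℝ) *
          (Fintype.card ((t : Fin (k + 1)) → Fin (m t)) : ℝ) ^ k := by
        exact_mod_cast h1
      rw [Nat.card_eq_fintype_card, Fintype.card_subtype] at hdens
      rw [h2, pow_succ, mul_comm ((Fintype.card ((s : Fin (k + 1)) → Fin (m s)) : ℝ) ^ k),
        ← mul_assoc]
      refine mul_le_mul_of_nonneg_right ?_ (by positivity)
      rw [hcardι]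
      exact hdens)
  refine ⟨s, x, d, hd, ?_⟩
  have h3 := coord_count m s (fun i => ∃ t : ℝ, x + t • d ∈ A s i)
  rw [Nat.card_eq_fintype_card, Fintype.card_subtype] at hle ⊢
  have h4 : ((Finset.univ.filter fun y : (t : Fin (k + 1)) → Fin (m t) =>
      ∃ t : ℝ, x + t • d ∈ A s (y s)).card : ℝ) * (m s : ℝ) =
      ((Finset.univ.filter fun i => ∃ t : ℝ, x + t • d ∈ A s i).card : ℝ) *
        (Fintype.card ((t : Fin (k + 1)) → Fin (m t)) : ℝ) := by
    exact_mod_cast h3
  have hms : (0:ℝ) ≤ (m s : ℝ) := by positivity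
  refine le_of_mul_le_mul_right ?_ hιpos
  rw [← h4]
  calc c * (m s : ℝ) * (Fintype.card ((s : Fin (k + 1)) → Fin (m s)) : ℝ) =
      (c * (Fintype.card ((s : Fin (k + 1)) → Fin (m s)) : ℝ)) * (m s : ℝ) := by ring
    _ ≤ _ := mul_le_mul_of_nonneg_right hle hms

end Pool.Agent.MP_179466_co
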