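import Pool.Agent.MP_179466_co.Sign
import Pool.Agent.MP_179466_co.Crit

open scoped BigOperators Classical

namespace Pool.Agent.MP_179466_co

/-- the Plücker coordinates of the line through `x` with direction `d` -/
noncomputable def cv (x d : EuclideanSpace ℝ (Fin 3)) : Fin 6 → ℝ :=
  ![d 0, d 1, d 2, x 1 * d 2 - x 2 * d 1, x 2 * d 0 - x 0 * d 2, x 0 * d 1 - x 1 * d 0]

/-- the linear form of two points -/
noncomputable def lform (q r : EuclideanSpace ℝ (Fin 3)) : (Fin 6 → ℝ) →ₗ[ℝ] ℝ :=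
  ∑ i, (![q 1 * r 2 - q 2 * r 1, q 2 * r 0 - q 0 * r 2, q 0 * r 1 - q 1 * r 0,
    r 0 - q 0, r 1 - q 1, r 2 - q 2] : Fin 6 → ℝ) i • LinearMap.proj i

lemma om_eq (x d q r : EuclideanSpace ℝ (Fin 3)) : om x d q r = lform q r (cv x d) := by
  simp only [lform, LinearMap.add_apply, LinearMap.smul_apply, LinearMap.proj_apply, cv, om,
    Fin.sum_univ_six, smul_eq_mul, Matrix.cons_val]
  ring

/-- The sign criterion in terms of the signs. -/
def CritS {m : ℕ} (σ : (Fin m ⊕ Fin 4) × (Fin m ⊕ Fin 4) → SignType) : Prop :=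
  (∃ a : Fin m, ∀ e : Fin 4, σ (Sum.inl a, Sum.inr e) = 0) ∨
  (∃ a b : Fin m, σ (Sum.inl a, Sum.inl b) = 0 ∧
    ∃ e : Fin 4, σ (Sum.inl a, Sum.inr e) = 1 ∧ σ (Sum.inl b, Sum.inr e) = -1) ∨
  (∃ a b c : Fin m, σ (Sum.inl a, Sum.inl b) = 1 ∧ σ (Sum.inl b, Sum.inl c) = 1 ∧
    σ (Sum.inl c, Sum.inl a) = 1)

lemma crit_iff {m : ℕ} (x d : EuclideanSpace ℝ (Fin 3)) (W : Fin m → EuclideanSpace ℝ (Fin 3)) :
    Crit x d W ↔ CritS (fun p => SignType.sign (om x d (Sum.elim W fr p.1) (Sum.elim W fr p.2))) := by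
  simp only [Crit, CritS, Sum.elim_inl, Sum.elim_inr, sign_eq_zero_iff, sign_eq_one_iff,
    sign_eq_neg_one_iff]

/-- the line through `x` with direction `d` meets the hull of the three points -/
def Meets (x d : EuclideanSpace ℝ (Fin 3)) (W : Fin 3 → EuclideanSpace ℝ (Fin 3)) : Prop :=
  ∃ s : ℝ, x + s • d ∈ convexHull ℝ (Set.range W)

/-- `K` triangles have few hit patterns. -/
lemma patterns_card {K : ℕ} (W : Fin K → Fin 3 → EuclideanSpace ℝ (Fin 3)) {ζ : Type*} [Fintype ζ]
    (x d : ζ → EuclideanSpace ℝ (Fin 3)) (hd : ∀ z, d z ≠ 0) :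
    (Finset.univ.image fun z => Finset.univ.filter fun k : Fin K => Meets (x z) (d z) (W k)).card ≤
      (98 * K + 1) ^ 6 := by
  have hcard : Fintype.card (Fin K × ((Fin 3 ⊕ Fin 4) × (Fin 3 ⊕ Fin 4))) = 49 * K := by
    simp; ring
  let e : Fin K × ((Fin 3 ⊕ Fin 4) × (Fin 3 ⊕ Fin 4)) ≃ Fin (49 * K) :=
    Fintype.equivFinOfCardEq hcard
  let F : Fin (49 * K) → (Fin 6 → ℝ) →ₗ[ℝ] ℝ := fun i =>
    lform (Sum.elim (W (e.symm i).1) fr (e.symm i).2.1) (Sum.elim (W (e.symm i).1) fr (e.symm i).2.2)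
  set S : Finset (Fin (49 * K) → SignType) := Finset.univ.filter fun σ =>
    ∃ u ∈ (⊤ : Submodule ℝ (Fin 6 → ℝ)), ∀ i, SignType.sign (F i u) = σ i with hS
  have hScard : S.card ≤ (98 * K + 1) ^ 6 := by
    have := sign_vectors (49 * K) F (⊤ : Submodule ℝ (Fin 6 → ℝ))
    rw [finrank_top, Module.finrank_fin_fun, ← mul_assoc] at this
    exact this
  let G : (Fin (49 * K) → SignType) → Finset (Fin K) := fun σ =>
    Finset.univ.filter fun k => CritS fun p => σ (e (k, p))
  have hsub : (Finset.univ.image fun z => Finset.univ.filter fun k : Fin K =>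
      Meets (x z) (d z) (W k)) ⊆ S.image G := by
    intro τ hτ
    rw [Finset.mem_image] at hτ ⊢
    obtain ⟨z, -, rfl⟩ := hτ
    refine ⟨fun i => SignType.sign (F i (cv (x z) (d z))), ?_, ?_⟩
    · rw [hS, Finset.mem_filter]
      exact ⟨Finset.mem_univ _, cv (x z) (d z), Submodule.mem_top, fun i => rfl⟩
    · ext k
      simp only [G, Finset.mem_filter, Finset.mem_univ, true_and, Meets]
      rw [hit_iff _ _ (hd z), crit_iff]
      simp only [F, Equiv.symm_apply_apply, om_eq]
  exact (Finset.card_le_card hsub).trans (Finset.card_image_le.trans hScard)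

/-- The local lemma: some `s` of the `K` triangles are such that every line that meets these `s`
triangles meets more than `t` of the `K` triangles. -/
lemma local_lemma {K : ℕ} (s t : ℕ) (hnum : (98 * K + 1) ^ 6 * t ^ s < K ^ s)
    (W : Fin K → Fin 3 → EuclideanSpace ℝ (Fin 3)) :
    ∃ z : Fin s → Fin K, ∀ x d : EuclideanSpace ℝ (Fin 3), d ≠ 0 →
      (∀ j, Meets x d (W (z j))) → t < (Finset.univ.filter fun k => Meets x d (W k)).card := by
  by_contra hcon
  push Not at hcon
  choose x d hd hz ht using hcon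
  set P : (Fin s → Fin K) → Finset (Fin K) := fun z =>
    Finset.univ.filter fun k => Meets (x z) (d z) (W k) with hP
  have h1 : (Finset.univ : Finset (Fin s → Fin K)) ⊆
      (Finset.univ.image P).biUnion fun T => Fintype.piFinset fun _ : Fin s =>
        if T.card ≤ t then T else ∅ := by
    intro z _
    rw [Finset.mem_biUnion]
    refine ⟨P z, Finset.mem_image_of_mem _ (Finset.mem_univ _), ?_⟩
    rw [Fintype.mem_piFinset]
    intro j
    rw [if_pos (ht z)]
    simp only [hP, Finset.mem_filter, Finset.mem_univ, true_and]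
    exact hz z j
  have h2 := Finset.card_le_card h1
  have h3 : ((Finset.univ.image P).biUnion fun T => Fintype.piFinset fun _ : Fin s =>
      if T.card ≤ t then T else ∅).card ≤ (98 * K + 1) ^ 6 * t ^ s := by
    calc _ ≤ ∑ T ∈ Finset.univ.image P, (Fintype.piFinset fun _ : Fin s =>
          if T.card ≤ t then T else ∅).card := Finset.card_biUnion_le
      _ ≤ ∑ _T ∈ Finset.univ.image P, t ^ s := by
          refine Finset.sum_le_sum fun T _ => ?_
          rw [Fintype.card_piFinset]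
          simp only [Finset.prod_const, Finset.card_univ, Fintype.card_fin]
          refine Nat.pow_le_pow_left ?_ _
          split_ifs with h
          · exact h
          · simp
      _ = (Finset.univ.image P).card * t ^ s := by rw [Finset.sum_const, smul_eq_mul]
      _ ≤ _ := Nat.mul_le_mul_right _ (patterns_card W x d hd)
  have h4 : (Finset.univ : Finset (Fin s → Fin K)).card = K ^ s := by simp
  omega

/-- Three points are enough. -/
lemma three {κ : Type*} (x d : EuclideanSpace ℝ (Fin 3)) (hd : d ≠ 0)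
    (V : κ → EuclideanSpace ℝ (Fin 3))
    (h : ∃ s : ℝ, x + s • d ∈ convexHull ℝ (Set.range V)) :
    ∃ i : Fin 3 → κ, Meets x d fun j => V (i j) := by
  rcases crit_of_hit x d hd V h with ⟨a, h⟩ | ⟨a, b, hab, e, ha, hb⟩ | ⟨a, b, c, hab, hbc, hca⟩
  · exact ⟨fun _ => a, hit_of_crit x d hd _ (Or.inl ⟨0, h⟩)⟩
  · refine ⟨![a, b, b], hit_of_crit x d hd _ (Or.inr (Or.inl ⟨0, 1, ?_, e, ?_, ?_⟩))⟩
    · simpa using hab
    · simpa using ha
    · simpa using hb
  · refine ⟨![a, b, c], hit_of_crit x d hd _ (Or.inr (Or.inr ⟨0, 1, 2, ?_, ?_, ?_⟩))⟩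
    · simpa using hab
    · simpa using hbc
    · simpa using hca

end Pool.Agent.MP_179466_co
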