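import Mathlib

open scoped BigOperators Classical

namespace Pool.Agent.MP_179466_co

/-- The number of sign vectors of `M` linear forms on a space of dimension `d` is at most
`(2 M + 1) ^ d`. -/
lemma sign_vectors {V : Type*} [AddCommGroup V] [Module ℝ V] [FiniteDimensional ℝ V] (M : ℕ) :
    ∀ (f : Fin M → V →ₗ[ℝ] ℝ) (W : Submodule ℝ V),
    (Finset.univ.filter fun σ : Fin M → SignType =>
      ∃ x ∈ W, ∀ i, SignType.sign (f i x) = σ i).card ≤ (2 * M + 1) ^ Module.finrank ℝ W := by
  induction M with
  | zero =>
    intro f W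
    calc _ ≤ (Finset.univ : Finset (Fin 0 → SignType)).card := Finset.card_filter_le _ _
      _ = 1 := by simp
      _ ≤ _ := by simp
  | succ M ih =>
    intro f W
    set f0 := f 0 with hf0
    set g : Fin M → V →ₗ[ℝ] ℝ := fun i => f i.succ with hg
    let A : SignType → Finset (Fin M → SignType) := fun s =>
      Finset.univ.filter fun τ => ∃ x ∈ W, SignType.sign (f0 x) = s ∧
        ∀ i, SignType.sign (g i x) = τ i
    let B : Finset (Fin M → SignType) := Finset.univ.filter fun τ => ∃ x ∈ W,
        ∀ i, SignType.sign (g i x) = τ i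
    have hAB : ∀ s, A s ⊆ B := by
      intro s τ hτ
      simp only [A, B, Finset.mem_filter, Finset.mem_univ, true_and] at hτ ⊢
      obtain ⟨x, hx, -, h⟩ := hτ
      exact ⟨x, hx, h⟩
    -- the three parts
    have hsub : (Finset.univ.filter fun σ : Fin (M + 1) → SignType =>
        ∃ x ∈ W, ∀ i, SignType.sign (f i x) = σ i) ⊆
        (Finset.univ : Finset SignType).biUnion fun s => (A s).image fun τ => Fin.cons s τ := by
      intro σ hσ
      rw [Finset.mem_filter] at hσ
      obtain ⟨-, x, hx, h⟩ := hσ
      rw [Finset.mem_biUnion]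
      refine ⟨σ 0, Finset.mem_univ _, ?_⟩
      rw [Finset.mem_image]
      refine ⟨fun i => σ i.succ, ?_, ?_⟩
      · simp only [A, Finset.mem_filter, Finset.mem_univ, true_and]
        exact ⟨x, hx, h 0, fun i => h i.succ⟩
      · exact Fin.cons_self_tail σ
    have hcard : (Finset.univ.filter fun σ : Fin (M + 1) → SignType =>
        ∃ x ∈ W, ∀ i, SignType.sign (f i x) = σ i).card ≤
        (A 0).card + (A (-1)).card + (A 1).card := by
      calc _ ≤ _ := Finset.card_le_card hsub
        _ ≤ ∑ s : SignType, ((A s).image fun τ => (Fin.cons s τ : Fin (M + 1) → SignType)).card :=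
            Finset.card_biUnion_le
        _ ≤ ∑ s : SignType, (A s).card := Finset.sum_le_sum fun s _ => Finset.card_image_le
        _ = (A 0).card + (A (-1)).card + (A 1).card := by
            have : (Finset.univ : Finset SignType) = {0, -1, 1} := by decide
            rw [this, Finset.sum_insert (by decide), Finset.sum_insert (by decide),
              Finset.sum_singleton, add_assoc]
    -- A_1 ∩ A_{-1} ⊆ A_0
    have hinter : A (-1) ∩ A 1 ⊆ A 0 := by
      intro τ hτ
      rw [Finset.mem_inter] at hτ
      simp only [A, Finset.mem_filter, Finset.mem_univ, true_and] at hτ ⊢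
      obtain ⟨⟨x, hx, hx0, hxτ⟩, ⟨y, hy, hy0, hyτ⟩⟩ := hτ
      have hx0' : f0 x < 0 := sign_eq_neg_one_iff.mp hx0
      have hy0' : 0 < f0 y := sign_eq_one_iff.mp hy0
      refine ⟨(f0 y) • x + (-(f0 x)) • y, W.add_mem (W.smul_mem _ hx) (W.smul_mem _ hy), ?_, ?_⟩
      · rw [map_add, map_smul, map_smul, smul_eq_mul, smul_eq_mul]
        rw [sign_eq_zero_iff]; ring
      · intro i
        rw [map_add, map_smul, map_smul, smul_eq_mul, smul_eq_mul]
        have h1 := hxτ i
        have h2 := hyτ i
        rcases lt_trichotomy (g i x) 0 with h | h | h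
        · have e1 : τ i = -1 := by rw [← h1]; exact sign_neg h
          have h3 : g i y < 0 := sign_eq_neg_one_iff.mp (h2.trans e1)
          rw [e1]
          apply sign_neg
          have := mul_neg_of_pos_of_neg hy0' h
          have := mul_neg_of_pos_of_neg (neg_pos.mpr hx0') h3
          linarith
        · have e1 : τ i = 0 := by rw [← h1, h]; exact sign_zero
          have h3 : g i y = 0 := sign_eq_zero_iff.mp (h2.trans e1)
          rw [e1, h, h3]
          simp
        · have e1 : τ i = 1 := by rw [← h1]; exact sign_pos h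
          have h3 : 0 < g i y := sign_eq_one_iff.mp (h2.trans e1)
          rw [e1]
          apply sign_pos
          have := mul_pos hy0' h
          have := mul_pos (neg_pos.mpr hx0') h3
          linarith
    have hA0 : (A 0).card ≤ (2 * M + 1) ^ Module.finrank ℝ (W ⊓ LinearMap.ker f0 : Submodule ℝ V) := by
      refine le_trans (Finset.card_le_card ?_) (ih g (W ⊓ LinearMap.ker f0))
      intro τ hτ
      simp only [A, Finset.mem_filter, Finset.mem_univ, true_and] at hτ ⊢
      obtain ⟨x, hx, hx0, h⟩ := hτ
      exact ⟨x, Submodule.mem_inf.mpr ⟨hx, LinearMap.mem_ker.mpr (sign_eq_zero_iff.mp hx0)⟩, h⟩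
    have hB : B.card ≤ (2 * M + 1) ^ Module.finrank ℝ W := ih g W
    by_cases hW : W ≤ LinearMap.ker f0
    · have hempty : ∀ s, s ≠ 0 → (A s).card = 0 := by
        intro s hs
        rw [Finset.card_eq_zero]
        apply Finset.eq_empty_of_forall_notMem
        intro τ hτ
        simp only [A, Finset.mem_filter, Finset.mem_univ, true_and] at hτ
        obtain ⟨x, hx, hx0, -⟩ := hτ
        have : f0 x = 0 := hW hx
        rw [this, sign_zero] at hx0
        exact hs hx0.symm
      have e1 := hempty (-1) (by decide)
      have e2 := hempty 1 (by decide)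
      calc _ ≤ _ := hcard
        _ = (A 0).card := by omega
        _ ≤ B.card := Finset.card_le_card (hAB 0)
        _ ≤ (2 * M + 1) ^ Module.finrank ℝ W := hB
        _ ≤ (2 * (M + 1) + 1) ^ Module.finrank ℝ W := Nat.pow_le_pow_left (by omega) _
    · have hlt : W ⊓ LinearMap.ker f0 < W :=
        lt_of_le_of_ne inf_le_left fun h => hW (inf_eq_left.mp h)
      have hfin := Submodule.finrank_lt_finrank_of_lt hlt
      obtain ⟨d, hd⟩ : ∃ d, Module.finrank ℝ W = d + 1 := ⟨Module.finrank ℝ W - 1, by omega⟩
      have h1 : (A 0).card ≤ (2 * M + 1) ^ d :=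
        hA0.trans (Nat.pow_le_pow_right (by omega) (by omega))
      have h2 : (A (-1)).card + (A 1).card ≤ B.card + (A 0).card := by
        rw [← Finset.card_union_add_card_inter]
        exact Nat.add_le_add (Finset.card_le_card (Finset.union_subset (hAB _) (hAB _)))
          (Finset.card_le_card hinter)
      rw [hd] at hB ⊢
      calc _ ≤ _ := hcard
        _ ≤ (2 * M + 1) ^ (d + 1) + 2 * (2 * M + 1) ^ d := by omega
        _ = (2 * M + 1) ^ d * (2 * (M + 1) + 1) := by ring
        _ ≤ (2 * (M + 1) + 1) ^ d * (2 * (M + 1) + 1) :=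
            Nat.mul_le_mul_right _ (Nat.pow_le_pow_left (by omega) _)
        _ = (2 * (M + 1) + 1) ^ (d + 1) := by ring

end Pool.Agent.MP_179466_co
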