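import Pool.Agent.LP3.Final25
import Pool.Agent.MP_179466_co.Sizes

open scoped BigOperators Classical

namespace Pool.Agent.MP_179466_co

/-- the complete three-partite theorem -/
theorem complete_three : ∃ c₀ : ℝ, 0 < c₀ ∧ ∀ (N : ℕ), 1 ≤ N →
    ∀ A : Fin 3 → Fin N → Set (EuclideanSpace ℝ (Fin 3)), (∀ s i, Convex ℝ (A s i)) →
    (∀ s t, s ≠ t → ∀ i j, (A s i ∩ A t j).Nonempty) →
    ∃ (s : Fin 3) (x d : EuclideanSpace ℝ (Fin 3)), d ≠ 0 ∧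
      c₀ * (N : ℝ) ≤ (Nat.card {i : Fin N // ∃ t : ℝ, x + t • d ∈ A s i} : ℝ) := by
  obtain ⟨c, e, hc, he, h⟩ := Pool.Agent.LP3.main
  refine ⟨c, hc, fun N hN A hA hp => ?_⟩
  obtain ⟨s, x, d, hd, hle⟩ := h (fun _ => N) (fun _ => hN) A hA (by
    intro s t hst
    have h0 : IsEmpty {ij : Fin N × Fin N // ¬ (A s ij.1 ∩ A t ij.2).Nonempty} :=
      ⟨fun p => p.2 (hp s t hst _ _)⟩
    rw [Nat.card_of_isEmpty]
    push_cast
    positivity)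
  exact ⟨s, x, d, hd, hle⟩

end Pool.Agent.MP_179466_co
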